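import Pool.Agent.Helper94.SubSUBF
import Pool.Agent.Helper98.SubSUBK
import Pool.Agent.Helper10.Sub.KDefs

/-!
# The Subspace theorem at two places from the Subspace theorem at all embeddings
-/

set_option autoImplicit false
set_option linter.unusedSectionVars false

namespace Pool.Agent.Helper94.Sub

open Pool.Agent.Helper10.Sub NumberField

/-- Coordinates of a subspace of `K ^ Y`. -/
theorem exists_coordsK {K : Type} [Field K] {Y : Type} [Fintype Y] (V : Submodule K (Y → K))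
    (M : ℕ) (hVM : Module.finrank K V = M) :
    ∃ (e : Fin M → Y) (R : Y → Fin M → K),
      (∀ y ∈ V, ∀ l, y l = ∑ k, R l k * y (e k)) ∧
      (∀ x : Fin M → K, (fun l => ∑ k, R l k * x k) ∈ V ∧
        ∀ k, ∑ j, R (e k) j * x j = x k) := by
  classical
  let co : Y → Module.Dual K V := fun l => (LinearMap.proj l).comp V.subtype
  obtain ⟨κ, a, ha, hspan, hli⟩ := exists_linearIndependent' K co
  have htop : Submodule.span K (Set.range co) = ⊤ := by
    have h1 : (Submodule.span K (Set.range co)).dualCoannihilator = ⊥ := by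
      rw [eq_bot_iff]
      intro y hy
      rw [Submodule.mem_dualCoannihilator] at hy
      rw [Submodule.mem_bot]
      apply Subtype.ext
      funext l
      exact hy (co l) (Submodule.subset_span ⟨l, rfl⟩)
    have h2 := Subspace.dualCoannihilator_dualAnnihilator_eq
      (W := Submodule.span K (Set.range co))
    rw [h1] at h2
    rw [← h2, Submodule.dualAnnihilator_bot]
  have hκ : Finite κ := Finite.of_injective a ha
  have := Fintype.ofFinite κ
  have hcard : Fintype.card κ = M := by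
    have h1 := finrank_span_eq_card hli
    rw [hspan, htop, finrank_top, Subspace.dual_finrank_eq, hVM] at h1
    exact h1.symm
  let e0 : Fin M ≃ κ := (finCongr hcard.symm).trans (Fintype.equivFin κ).symm
  let e : Fin M → Y := fun k => a (e0 k)
  let φ : V →ₗ[K] (Fin M → K) := LinearMap.pi fun k => co (e k)
  have hφ : Function.Injective φ := by
    rw [injective_iff_map_eq_zero]
    intro y hy
    have h0 : ∀ l, co l y = 0 := by
      have h3 : ∀ g ∈ Submodule.span K (Set.range (co ∘ a)), g y = 0 := by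
        intro g hg
        induction hg using Submodule.span_induction with
        | mem g hg =>
          obtain ⟨i, rfl⟩ := hg
          have := congrFun hy (e0.symm i)
          simpa [φ, e] using this
        | zero => rfl
        | add g1 g2 _ _ h1 h2 => simp [h1, h2]
        | smul c g _ h1 => simp [h1]
      intro l
      apply h3
      rw [hspan]
      exact Submodule.subset_span ⟨l, rfl⟩
    apply Subtype.ext
    funext l
    exact h0 l
  have hbij : Function.Bijective φ := by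
    refine ⟨hφ, ?_⟩
    exact (LinearMap.injective_iff_surjective_of_finrank_eq_finrank (by simp [hVM])).mp hφ
  let Φ : V ≃ₗ[K] (Fin M → K) := LinearEquiv.ofBijective φ hbij
  let R : Y → Fin M → K := fun l k => (Φ.symm (Pi.single k 1)).1 l
  have key : ∀ x : Fin M → K, (Φ.symm x).1 = fun l => ∑ k, R l k * x k := by
    intro x
    have h1 : x = ∑ k, x k • (Pi.single k (1 : K) : Fin M → K) := by
      funext j
      simp [Finset.sum_apply, Pi.single_apply]
    conv_lhs => rw [h1]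
    rw [map_sum]
    funext l
    simp only [map_smul, AddSubmonoidClass.coe_finsetSum, Finset.sum_apply, Submodule.coe_smul,
      Pi.smul_apply, smul_eq_mul, R]
    exact Finset.sum_congr rfl fun k _ => mul_comm _ _
  refine ⟨e, R, ?_, ?_⟩
  · intro y hy l
    have h1 : Φ.symm (Φ ⟨y, hy⟩) = ⟨y, hy⟩ := Φ.symm_apply_apply _
    have h2 := key (Φ ⟨y, hy⟩)
    rw [h1] at h2
    exact congrFun h2 l
  · intro x
    rw [← key x]
    refine ⟨(Φ.symm x).2, ?_⟩
    intro k
    have h1 := congrFun (key x) (e k)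
    rw [← h1]
    have h2 := congrFun (Φ.apply_symm_apply x) k
    exact h2


/-- Elements algebraic over a number field are algebraic over `ℚ`, also after a homomorphism. -/
theorem isAlgebraic_map {K L F : Type} [Field K] [NumberField K] [Field L] [CharZero L]
    [Algebra K L] [Field F] [Algebra ℚ F] (τ : L →+* F) {x : L} (hx : IsAlgebraic K x) :
    IsAlgebraic ℚ (τ x) := by
  have h1 : IsAlgebraic ℚ x := hx.restrictScalars ℚ
  exact h1.algHom τ.toRatAlgHom

section forms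

variable {K : Type} [Field K] [NumberField K] {L : Type} [NontriviallyNormedField L] [CharZero L]
  [Algebra K L] {Y : Type} [Fintype Y] {V : Submodule K (Y → K)} {M : ℕ}

/-- The matrix of the forms `l` in the coordinates. -/
noncomputable def fmat (R : Y → Fin M → K) (l : Fin M → Y → L) : Matrix (Fin M) (Fin M) L :=
  fun i j => ∑ m, l i m * algebraMap K L (R m j)

theorem lf_eq (e : Fin M → Y) (R : Y → Fin M → K)
    (hR : ∀ y ∈ V, ∀ l, y l = ∑ k, R l k * y (e k)) (l : Fin M → Y → L) (y : Y → K) (hy : y ∈ V)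
    (i : Fin M) : lf (l i) y = ∑ j, fmat R l i j * algebraMap K L (y (e j)) := by
  unfold lf fmat
  simp only [Finset.sum_mul]
  rw [Finset.sum_comm]
  refine Finset.sum_congr rfl fun m _ => ?_
  rw [hR y hy m, map_sum, Finset.mul_sum]
  refine Finset.sum_congr rfl fun j _ => ?_
  rw [map_mul, mul_assoc]

theorem det_fmat (e : Fin M → Y) (R : Y → Fin M → K)
    (hR : ∀ y ∈ V, ∀ l, y l = ∑ k, R l k * y (e k)) (l : Fin M → Y → L)
    (hind : ∀ c : Fin M → L, (∀ y ∈ V, ∑ i, c i * lf (l i) y = 0) → c = 0) :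
    (fmat R l).det ≠ 0 := by
  intro h0
  obtain ⟨c, hc, hc0⟩ := Matrix.exists_vecMul_eq_zero_iff.2 h0
  apply hc
  apply hind
  intro y hy
  have h1 : ∀ i, c i * lf (l i) y = ∑ j, c i * fmat R l i j * algebraMap K L (y (e j)) := by
    intro i
    rw [lf_eq e R hR l y hy i, Finset.mul_sum]
    exact Finset.sum_congr rfl fun j _ => (mul_assoc _ _ _).symm
  simp only [h1]
  rw [Finset.sum_comm]
  refine Finset.sum_eq_zero fun j _ => ?_
  rw [← Finset.sum_mul]
  have h2 := congrFun hc0 j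
  have h3 : ∑ i, c i * fmat R l i j = 0 := h2
  rw [h3, zero_mul]

theorem alg_fmat {F : Type} [Field F] [Algebra ℚ F] (τ : L →+* F) (R : Y → Fin M → K)
    (l : Fin M → Y → L) (hl : ∀ i k, IsAlgebraic K (l i k)) (i j : Fin M) :
    IsAlgebraic ℚ (τ (fmat R l i j)) := by
  apply isAlgebraic_map (K := K)
  unfold fmat
  have h : ∀ s : Finset Y, IsAlgebraic K (∑ m ∈ s, l i m * algebraMap K L (R m j)) := by
    classical
    intro s
    induction s using Finset.induction_on with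
    | empty => simpa using isAlgebraic_zero
    | insert a s ha ih =>
      rw [Finset.sum_insert ha]
      exact ((hl i a).mul (isAlgebraic_algebraMap _)).add ih
  exact h Finset.univ

end forms

/-- The matrix of forms at an embedding. -/
theorem local_matrix {K : Type} [Field K] [NumberField K] {L₁ L₂ : Type}
    [NontriviallyNormedField L₁] [NontriviallyNormedField L₂] [CharZero L₁] [CharZero L₂]
    [Algebra K L₁] [Algebra K L₂] {Y : Type} [Fintype Y] {V : Submodule K (Y → K)} {M : ℕ}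
    (O : Subring K) (n₁ n₂ : ℕ) (hn₁ : n₁ ≠ 0) (hn₂ : n₂ ≠ 0)
    (e : Fin M → Y) (R : Y → Fin M → K) (hR : ∀ y ∈ V, ∀ l, y l = ∑ k, R l k * y (e k))
    (l₁ : Fin M → Y → L₁) (l₂ : Fin M → Y → L₂)
    (halg₁ : ∀ i k, IsAlgebraic K (l₁ i k)) (halg₂ : ∀ i k, IsAlgebraic K (l₂ i k))
    (hind₁ : ∀ c : Fin M → L₁, (∀ y ∈ V, ∑ i, c i * lf (l₁ i) y = 0) → c = 0)
    (hind₂ : ∀ c : Fin M → L₂, (∀ y ∈ V, ∑ i, c i * lf (l₂ i) y = 0) → c = 0)
    {F : Type} [NormedField F] [Algebra ℚ F] (σ : K →+* F) (c : Fin 3)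
    (h1 : c = 1 → ∃ τ : L₁ →+* F, (∀ z, ‖τ z‖ = ‖z‖) ∧ ∀ x, σ x = τ (algebraMap K L₁ x))
    (h2 : c = 2 → ∃ τ : L₂ →+* F, (∀ z, ‖τ z‖ = ‖z‖) ∧ ∀ x, σ x = τ (algebraMap K L₂ x))
    (h0 : c = 0 → ∀ y ∈ O, ‖σ y‖ ≤ 1) :
    ∃ l : Matrix (Fin M) (Fin M) F, (∀ i j, IsAlgebraic ℚ (l i j)) ∧ l.det ≠ 0 ∧
      ∀ (a a' : Fin M → ℝ), ∀ y ∈ V, (∀ k, y k ∈ O) →
        (∀ i, ‖lf (l₁ i) y‖ ^ n₁ ≤ a i) → (∀ i, ‖lf (l₂ i) y‖ ^ n₂ ≤ a' i) →
        ∀ i, ‖∑ j, l i j * σ (y (e j))‖ ≤
          if c = 1 then (a i) ^ ((n₁ : ℝ)⁻¹) else if c = 2 then (a' i) ^ ((n₂ : ℝ)⁻¹) else 1 := by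
  classical
  have root : ∀ (n : ℕ) (hn : n ≠ 0) (x b : ℝ), 0 ≤ x → x ^ n ≤ b → x ≤ b ^ ((n : ℝ)⁻¹) := by
    intro n hn x b hx hb
    have h1 : (x ^ n) ^ ((n : ℝ)⁻¹) ≤ b ^ ((n : ℝ)⁻¹) :=
      Real.rpow_le_rpow (pow_nonneg hx _) hb (by positivity)
    rwa [Real.pow_rpow_inv_natCast hx hn] at h1
  by_cases hc1 : c = 1
  · obtain ⟨τ, hτ, hστ⟩ := h1 hc1
    refine ⟨(fmat R l₁).map τ, fun i j => alg_fmat τ R l₁ halg₁ i j, ?_, ?_⟩
    · have h3 : ((fmat R l₁).map τ).det = τ (fmat R l₁).det := (RingHom.map_det τ _).symm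
      rw [h3, map_ne_zero]
      exact det_fmat e R hR l₁ hind₁
    · intro a a' y hy _ ha _ i
      rw [if_pos hc1]
      have h3 : ∑ j, ((fmat R l₁).map τ) i j * σ (y (e j)) = τ (lf (l₁ i) y) := by
        rw [lf_eq e R hR l₁ y hy i, map_sum]
        refine Finset.sum_congr rfl fun j _ => ?_
        rw [map_mul, hστ, Matrix.map_apply]
      rw [h3, hτ]
      exact root n₁ hn₁ _ _ (norm_nonneg _) (ha i)
  by_cases hc2 : c = 2
  · obtain ⟨τ, hτ, hστ⟩ := h2 hc2
    refine ⟨(fmat R l₂).map τ, fun i j => alg_fmat τ R l₂ halg₂ i j, ?_, ?_⟩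
    · have h3 : ((fmat R l₂).map τ).det = τ (fmat R l₂).det := (RingHom.map_det τ _).symm
      rw [h3, map_ne_zero]
      exact det_fmat e R hR l₂ hind₂
    · intro a a' y hy _ _ ha i
      rw [if_neg hc1, if_pos hc2]
      have h3 : ∑ j, ((fmat R l₂).map τ) i j * σ (y (e j)) = τ (lf (l₂ i) y) := by
        rw [lf_eq e R hR l₂ y hy i, map_sum]
        refine Finset.sum_congr rfl fun j _ => ?_
        rw [map_mul, hστ, Matrix.map_apply]
      rw [h3, hτ]
      exact root n₂ hn₂ _ _ (norm_nonneg _) (ha i)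
  · have hc0 : c = 0 := by
      fin_cases c <;> simp_all
    refine ⟨1, ?_, ?_, ?_⟩
    · intro i j
      rw [Matrix.one_apply]
      split_ifs
      · exact isAlgebraic_one
      · exact isAlgebraic_zero
    · rw [Matrix.det_one]
      exact one_ne_zero
    · intro a a' y _ hyO _ _ i
      rw [if_neg hc1, if_neg hc2]
      have h3 : ∑ j, (1 : Matrix (Fin M) (Fin M) F) i j * σ (y (e j)) = σ (y (e i)) := by
        rw [Finset.sum_eq_single i]
        · rw [Matrix.one_apply_eq, one_mul]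
        · intro j _ hj
          rw [Matrix.one_apply_ne (Ne.symm hj), zero_mul]
        · simp
      rw [h3]
      exact h0 hc0 _ (hyO _)

theorem prod_class {E : Type} [Fintype E] (c : E → Fin 3) (u v : ℝ) :
    ∏ σ, (if c σ = 1 then u else if c σ = 2 then v else 1) =
      u ^ (Finset.univ.filter fun σ => c σ = 1).card *
      v ^ (Finset.univ.filter fun σ => c σ = 2).card := by
  classical
  rw [← Finset.prod_const, ← Finset.prod_const, Finset.prod_filter, Finset.prod_filter,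
    ← Finset.prod_mul_distrib]
  refine Finset.prod_congr rfl fun σ _ => ?_
  by_cases h1 : c σ = 1
  · rw [if_pos h1, if_pos h1, if_neg (by rw [h1]; decide), mul_one]
  · rw [if_neg h1, if_neg h1, one_mul]

/-- The Subspace theorem at two places from the Subspace theorem at all embeddings. -/
theorem subHyp_gen {K L₁ L₂ : Type} [Field K] [NumberField K]
    [NontriviallyNormedField L₁] [NontriviallyNormedField L₂] [CharZero L₁] [CharZero L₂]
    [Algebra K L₁] [Algebra K L₂] (S : TwoPl K L₁ L₂)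
    {T : Type} [Fintype T] {p : T → ℕ} [∀ t, Fact (p t).Prime] (hp : Function.Injective p)
    (F : T → Type) [∀ t, NontriviallyNormedField (F t)]
    [∀ t, NormedAlgebra ℚ_[p t] (F t)] [∀ t, FiniteDimensional ℚ_[p t] (F t)]
    [∀ t, CharZero (F t)] [∀ t, Fintype (K →+* F t)]
    (hF : ∀ t, Submodule.span ℚ_[p t] {x : F t | IsAlgebraic ℚ x} = ⊤)
    (hcard : ∀ t, Fintype.card (K →+* F t) = Module.finrank ℚ K)
    (hO : ∀ y ∈ S.O, ∃ n : ℕ, IsIntegral ℤ ((pprod p : K) ^ n * y))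
    (c : (K →+* ℂ) → Fin 3) (c' : ∀ t, (K →+* F t) → Fin 3)
    (h1 : ∀ σ, c σ = 1 → ∃ τ : L₁ →+* ℂ, (∀ z, ‖τ z‖ = ‖z‖) ∧ ∀ x, σ x = τ (algebraMap K L₁ x))
    (h2 : ∀ σ, c σ = 2 → ∃ τ : L₂ →+* ℂ, (∀ z, ‖τ z‖ = ‖z‖) ∧ ∀ x, σ x = τ (algebraMap K L₂ x))
    (h0 : ∀ σ, c σ = 0 → ∀ y ∈ S.O, ‖σ y‖ ≤ 1)
    (h1' : ∀ t σ, c' t σ = 1 →
      ∃ τ : L₁ →+* F t, (∀ z, ‖τ z‖ = ‖z‖) ∧ ∀ x, σ x = τ (algebraMap K L₁ x))
    (h2' : ∀ t σ, c' t σ = 2 →
      ∃ τ : L₂ →+* F t, (∀ z, ‖τ z‖ = ‖z‖) ∧ ∀ x, σ x = τ (algebraMap K L₂ x))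
    (h0' : ∀ t σ, c' t σ = 0 → ∀ y ∈ S.O, ‖σ y‖ ≤ 1)
    (hn1 : (Finset.univ.filter fun σ => c σ = 1).card +
      ∑ t, (Finset.univ.filter fun σ => c' t σ = 1).card = S.n₁)
    (hn2 : (Finset.univ.filter fun σ => c σ = 2).card +
      ∑ t, (Finset.univ.filter fun σ => c' t σ = 2).card = S.n₂) : S.SubHyp := by
  classical
  intro Y _ _ V M hVM hM l₁ l₂ halg₁ halg₂ hind₁ hind₂ δ B hδ
  set B0 : ℝ := max B 0 with hB0
  have hB0nn : 0 ≤ B0 := le_max_right _ _
  obtain ⟨e, R, hR, hR'⟩ := exists_coordsK V M hVM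
  choose l hl hd hbd using fun σ : K →+* ℂ =>
    local_matrix S.O S.n₁ S.n₂ S.hn₁ S.hn₂ e R hR l₁ l₂ halg₁ halg₂ hind₁ hind₂ σ (c σ)
      (h1 σ) (h2 σ) (h0 σ)
  choose l' hl' hd' hbd' using fun (t : T) (σ : K →+* F t) =>
    local_matrix S.O S.n₁ S.n₂ S.hn₁ S.hn₂ e R hR l₁ l₂ halg₁ halg₂ hind₁ hind₂ σ (c' t σ)
      (h1' t σ) (h2' t σ) (h0' t σ)
  obtain ⟨𝒲, h𝒲, hmain⟩ := Pool.Agent.Helper98.Sub.subspaceK F hcard M hM δ B0 hδ
    (fun ι _ _ hι A A' algA algA' dA dA' =>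
      subspaceF_all F hF (δ / 2) (B0 + 1) hp hι (by positivity) A A' algA algA' dA dA')
    l l' hl hl' hd hd'
  refine ⟨𝒲.image fun W => V ⊓ W.comap (LinearMap.funLeft K K e), ?_, ?_⟩
  · intro W hW
    obtain ⟨W', hW', rfl⟩ := Finset.mem_image.1 hW
    refine lt_of_le_of_ne inf_le_left ?_
    intro heq
    apply h𝒲 W' hW'
    rw [eq_top_iff]
    intro x _
    obtain ⟨h3, h4⟩ := hR' x
    rw [← heq] at h3
    have h5 := h3.2
    have h6 : LinearMap.funLeft K K e (fun l => ∑ k, R l k * x k) = x := by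
      funext k
      exact h4 k
    rw [SetLike.mem_coe, Submodule.mem_comap, h6] at h5
    exact h5
  · intro Q a a' hQ ha ha' hprod y hy hyO hya hya'
    have hQpos : 0 < Q := by linarith
    have haP : ∀ i, PB Q B0 (a i) := fun i => PB.mono hQ (le_max_left _ _) (ha i)
    have haP' : ∀ i, PB Q B0 (a' i) := fun i => PB.mono hQ (le_max_left _ _) (ha' i)
    have hrt : ∀ (n : ℕ) (hn : n ≠ 0) (x : ℝ), PB Q B0 x → PB Q B0 (x ^ ((n : ℝ)⁻¹)) := by
      intro n hn x hx
      refine PB.mono hQ ?_ (hx.rpow hQ (by positivity))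
      have h3 : ((n : ℝ)⁻¹) ≤ 1 := by
        apply inv_le_one_of_one_le₀
        exact_mod_cast Nat.one_le_iff_ne_zero.2 hn
      calc B0 * (n : ℝ)⁻¹ ≤ B0 * 1 := mul_le_mul_of_nonneg_left h3 hB0nn
        _ = B0 := mul_one _
    set wt : Fin 3 → Fin M → ℝ := fun cl i =>
      if cl = 1 then (a i) ^ ((S.n₁ : ℝ)⁻¹) else if cl = 2 then (a' i) ^ ((S.n₂ : ℝ)⁻¹) else 1
      with hwt
    have hwtP : ∀ cl i, PB Q B0 (wt cl i) := by
      intro cl i
      simp only [hwt]
      split_ifs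
      · exact hrt _ S.hn₁ _ (haP i)
      · exact hrt _ S.hn₂ _ (haP' i)
      · exact PB.one hQ hB0nn
    set u : ℝ := (∏ i, a i) ^ ((S.n₁ : ℝ)⁻¹) with hu
    set v : ℝ := (∏ i, a' i) ^ ((S.n₂ : ℝ)⁻¹) with hv
    have hwtprod : ∀ cl, ∏ i, wt cl i = if cl = 1 then u else if cl = 2 then v else 1 := by
      intro cl
      simp only [hwt]
      split_ifs
      · exact Real.finsetProd_rpow _ _ (fun i _ => ((haP i).pos hQ).le) _
      · exact Real.finsetProd_rpow _ _ (fun i _ => ((haP' i).pos hQ).le) _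
      · exact Finset.prod_const_one
    have hP : (∏ σ, ∏ i, wt (c σ) i) * ∏ t, ∏ σ, ∏ i, wt (c' t σ) i =
        (∏ i, a i) * ∏ i, a' i := by
      simp only [hwtprod]
      rw [prod_class c u v]
      have h3 : ∀ t, ∏ σ, (if c' t σ = 1 then u else if c' t σ = 2 then v else 1) =
          u ^ (Finset.univ.filter fun σ => c' t σ = 1).card *
          v ^ (Finset.univ.filter fun σ => c' t σ = 2).card := fun t => prod_class (c' t) u v
      simp only [h3]
      rw [Finset.prod_mul_distrib, Finset.prod_pow_eq_pow_sum, Finset.prod_pow_eq_pow_sum,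
        mul_mul_mul_comm, ← pow_add, ← pow_add, hn1, hn2, hu, hv,
        Real.rpow_inv_natCast_pow (Finset.prod_nonneg fun i _ => ((haP i).pos hQ).le) S.hn₁,
        Real.rpow_inv_natCast_pow (Finset.prod_nonneg fun i _ => ((haP' i).pos hQ).le) S.hn₂]
    obtain ⟨W, hW, hyW⟩ := hmain Q (fun σ i => wt (c σ) i) (fun t σ i => wt (c' t σ) i) hQ
      (fun σ i => hwtP _ i) (fun t σ i => hwtP _ i) (by rw [hP]; exact hprod)
      (fun k => y (e k)) (fun k => hO _ (hyO _))
      (fun σ i => hbd σ a a' y hy hyO hya hya' i)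
      (fun t σ i => hbd' t σ a a' y hy hyO hya hya' i)
    exact ⟨_, Finset.mem_image_of_mem _ hW, hy, hyW⟩

end Pool.Agent.Helper94.Sub
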