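import Pool.Agent.Helper94.Sub.Basic

/-!
# Subspace theorem project: quantities bounded by powers of `Q`, bounds for successive minima
-/

set_option autoImplicit false
set_option linter.unusedSectionVars false

namespace Pool.Agent.Helper94.Sub

open Pool.Agent.Helper10.Sub

/-- `x` lies between `Q ^ (-E)` and `Q ^ E`. -/
def PB (Q E x : ℝ) : Prop := Q ^ (-E) ≤ x ∧ x ≤ Q ^ E

theorem PB.pos {Q E x : ℝ} (hQ : 1 ≤ Q) (h : PB Q E x) : 0 < x :=
  (Real.rpow_pos_of_pos (zero_lt_one.trans_le hQ) _).trans_le h.1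

theorem PB.mono {Q E F x : ℝ} (hQ : 1 ≤ Q) (hEF : E ≤ F) (h : PB Q E x) : PB Q F x :=
  ⟨(Real.rpow_le_rpow_of_exponent_le hQ (neg_le_neg hEF)).trans h.1,
    h.2.trans (Real.rpow_le_rpow_of_exponent_le hQ hEF)⟩

theorem PB.mul {Q E F x y : ℝ} (hQ : 1 ≤ Q) (hx : PB Q E x) (hy : PB Q F y) :
    PB Q (E + F) (x * y) := by
  have hQ0 : 0 < Q := zero_lt_one.trans_le hQ
  constructor
  · rw [neg_add, Real.rpow_add hQ0]
    exact mul_le_mul hx.1 hy.1 (Real.rpow_nonneg hQ0.le _) (hx.pos hQ).le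
  · rw [Real.rpow_add hQ0]
    exact mul_le_mul hx.2 hy.2 (hy.pos hQ).le (Real.rpow_nonneg hQ0.le _)

theorem PB.inv {Q E x : ℝ} (hQ : 1 ≤ Q) (hx : PB Q E x) : PB Q E x⁻¹ := by
  have hQ0 : 0 < Q := zero_lt_one.trans_le hQ
  constructor
  · rw [Real.rpow_neg hQ0.le]
    exact inv_anti₀ (hx.pos hQ) hx.2
  · have h1 := inv_anti₀ (Real.rpow_pos_of_pos hQ0 _) hx.1
    rwa [Real.rpow_neg hQ0.le, inv_inv] at h1

theorem PB.div {Q E F x y : ℝ} (hQ : 1 ≤ Q) (hx : PB Q E x) (hy : PB Q F y) :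
    PB Q (E + F) (x / y) := by
  rw [div_eq_mul_inv]
  exact hx.mul hQ (hy.inv hQ)

theorem PB.one {Q E : ℝ} (hQ : 1 ≤ Q) (hE : 0 ≤ E) : PB Q E 1 :=
  ⟨Real.rpow_le_one_of_one_le_of_nonpos hQ (by linarith), Real.one_le_rpow hQ hE⟩

theorem PB.prod {κ : Type} {Q E : ℝ} (hQ : 1 ≤ Q) (s : Finset κ) (f : κ → ℝ)
    (h : ∀ i ∈ s, PB Q E (f i)) : PB Q (s.card * E) (∏ i ∈ s, f i) := by
  classical
  induction s using Finset.induction_on with
  | empty => simpa using PB.one hQ le_rfl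
  | insert i s hi ih =>
    rw [Finset.prod_insert hi, Finset.card_insert_of_notMem hi]
    have h1 := (h i (Finset.mem_insert_self _ _)).mul hQ
      (ih fun j hj => h j (Finset.mem_insert_of_mem hj))
    have h2 : E + (s.card : ℝ) * E = ((s.card + 1 : ℕ) : ℝ) * E := by push_cast; ring
    rwa [h2] at h1

theorem PB.max {Q E x y : ℝ} (hx : PB Q E x) (hy : PB Q E y) : PB Q E (max x y) :=
  ⟨hx.1.trans (le_max_left _ _), max_le hx.2 hy.2⟩

/-- Constants are bounded by powers of `Q ≥ 2`. -/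
theorem PB.const {C : ℝ} (hC : 0 < C) : ∃ E : ℝ, 0 ≤ E ∧ ∀ Q : ℝ, 2 ≤ Q → PB Q E C := by
  refine ⟨|Real.log C| / Real.log 2, div_nonneg (abs_nonneg _) (Real.log_nonneg one_le_two), ?_⟩
  intro Q hQ
  have hQ0 : 0 < Q := by linarith
  have hl2 : 0 < Real.log 2 := Real.log_pos one_lt_two
  have hlQ : Real.log 2 ≤ Real.log Q := Real.log_le_log two_pos hQ
  have h1 : |Real.log C| ≤ |Real.log C| / Real.log 2 * Real.log Q := by
    rw [div_mul_eq_mul_div, le_div_iff₀ hl2]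
    exact mul_le_mul_of_nonneg_left hlQ (abs_nonneg _)
  constructor
  · rw [← Real.log_le_log_iff (Real.rpow_pos_of_pos hQ0 _) hC, Real.log_rpow hQ0]
    have := neg_abs_le (Real.log C)
    linarith
  · rw [← Real.log_le_log_iff hC (Real.rpow_pos_of_pos hQ0 _), Real.log_rpow hQ0]
    have := le_abs_self (Real.log C)
    linarith

theorem PB.rpow {Q E x r : ℝ} (hQ : 1 ≤ Q) (hx : PB Q E x) (hr : 0 ≤ r) :
    PB Q (E * r) (x ^ r) := by
  have hQ0 : 0 < Q := zero_lt_one.trans_le hQ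
  constructor
  · have h1 := Real.rpow_le_rpow (Real.rpow_nonneg hQ0.le _) hx.1 hr
    rwa [← Real.rpow_mul hQ0.le, neg_mul] at h1
  · have h1 := Real.rpow_le_rpow (hx.pos hQ).le hx.2 hr
    rwa [← Real.rpow_mul hQ0.le] at h1

/-- Powers of `Q` dominate constants. -/
theorem exists_ge_rpow (C δ : ℝ) (hδ : 0 < δ) : ∃ Q0 : ℝ, 2 ≤ Q0 ∧ ∀ Q, Q0 ≤ Q → C ≤ Q ^ δ := by
  have h := (tendsto_rpow_atTop hδ).eventually_ge_atTop C
  obtain ⟨Q1, hQ1⟩ := Filter.eventually_atTop.1 h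
  exact ⟨max 2 Q1, le_max_left _ _, fun Q hQ => hQ1 Q ((le_max_right _ _).trans hQ)⟩

variable {ι : Type} [Fintype ι] [DecidableEq ι] {T : Type} [Fintype T] {p : T → ℕ}
  [∀ t, Fact (p t).Prime]

theorem wprod_pos {a : ι → ℝ} {a' : T → ι → ℝ} (ha : ∀ i, 0 < a i) (ha' : ∀ t i, 0 < a' t i) :
    0 < wprod a a' :=
  mul_pos (Finset.prod_pos fun i _ => ha i)
    (Finset.prod_pos fun t _ => Finset.prod_pos fun i _ => ha' t i)

theorem PB.wprod {Q B : ℝ} (hQ : 1 ≤ Q) {a : ι → ℝ} {a' : T → ι → ℝ}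
    (ha : ∀ i, PB Q B (a i)) (ha' : ∀ t i, PB Q B (a' t i)) :
    PB Q ((Fintype.card ι) * B + (Fintype.card T) * ((Fintype.card ι) * B)) (wprod a a') := by
  have h1 := PB.prod hQ Finset.univ a fun i _ => ha i
  have h2 := PB.prod hQ Finset.univ (fun t => ∏ i, a' t i)
    fun t _ => PB.prod hQ Finset.univ (a' t) fun i _ => ha' t i
  exact h1.mul hQ h2

/-- The size of the unit vectors. -/
theorem N_single_le (S : Sys ι T p) : ∃ C : ℝ, 0 < C ∧ ∀ (M : ℝ) (a : ι → ℝ) (a' : T → ι → ℝ),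
    0 < M → (∀ i, M⁻¹ ≤ a i) → (∀ t i, M⁻¹ ≤ a' t i) → ∀ j,
    S.N a a' (Pi.single j 1) ≤ C * (M * M ^ Fintype.card T) := by
  set C1 : ℝ := 1 + ∑ i, ∑ j, |S.A i j| with hC1
  set C2 : T → ℝ := fun t => 1 + ∑ i, ∑ j, ‖S.A' t i j‖ with hC2
  have h1 : ∀ i j, |S.A i j| ≤ C1 := by
    intro i j
    have e1 : |S.A i j| ≤ ∑ j, |S.A i j| :=
      Finset.single_le_sum (f := fun j => |S.A i j|) (fun _ _ => abs_nonneg _) (Finset.mem_univ j)
    have e2 : (∑ j, |S.A i j|) ≤ ∑ i, ∑ j, |S.A i j| :=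
      Finset.single_le_sum (f := fun i => ∑ j, |S.A i j|)
        (fun _ _ => Finset.sum_nonneg fun _ _ => abs_nonneg _) (Finset.mem_univ i)
    linarith
  have h2 : ∀ t i j, ‖S.A' t i j‖ ≤ C2 t := by
    intro t i j
    have e1 : ‖S.A' t i j‖ ≤ ∑ j, ‖S.A' t i j‖ :=
      Finset.single_le_sum (f := fun j => ‖S.A' t i j‖) (fun _ _ => norm_nonneg _)
        (Finset.mem_univ j)
    have e2 : (∑ j, ‖S.A' t i j‖) ≤ ∑ i, ∑ j, ‖S.A' t i j‖ :=
      Finset.single_le_sum (f := fun i => ∑ j, ‖S.A' t i j‖)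
        (fun _ _ => Finset.sum_nonneg fun _ _ => norm_nonneg _) (Finset.mem_univ i)
    simp only [hC2]
    linarith
  have hC1pos : 0 < C1 := by
    have : 0 ≤ ∑ i, ∑ j, |S.A i j| :=
      Finset.sum_nonneg fun _ _ => Finset.sum_nonneg fun _ _ => abs_nonneg _
    linarith
  have hC2pos : ∀ t, 0 < C2 t := by
    intro t
    have : 0 ≤ ∑ i, ∑ j, ‖S.A' t i j‖ :=
      Finset.sum_nonneg fun _ _ => Finset.sum_nonneg fun _ _ => norm_nonneg _
    simp only [hC2]
    linarith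
  refine ⟨C1 * ∏ t, C2 t, mul_pos hC1pos (Finset.prod_pos fun t _ => hC2pos t), ?_⟩
  intro M a a' hM ha ha' j
  have hMi : 0 < M⁻¹ := inv_pos.2 hM
  have e1 : S.Ninf a (Pi.single j 1) ≤ C1 * M := by
    unfold Sys.Ninf
    refine (pi_norm_le_iff_of_nonneg (by positivity)).2 fun i => ?_
    have hL : S.L (Pi.single j 1) i = S.A i j := by
      unfold Sys.L
      rw [Finset.sum_eq_single j]
      · simp
      · intro b _ hb
        simp [Pi.single_eq_of_ne hb]
      · simp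
    rw [hL, norm_div, Real.norm_eq_abs, Real.norm_eq_abs, abs_of_pos (hMi.trans_le (ha i)),
      div_le_iff₀ (hMi.trans_le (ha i))]
    calc |S.A i j| ≤ C1 := h1 i j
      _ = C1 * (M * M⁻¹) := by rw [mul_inv_cancel₀ hM.ne', mul_one]
      _ ≤ C1 * (M * a i) := by
          refine mul_le_mul_of_nonneg_left ?_ hC1pos.le
          exact mul_le_mul_of_nonneg_left (ha i) hM.le
      _ = C1 * M * a i := by ring
  have e2 : ∀ t, S.Np t (a' t) (Pi.single j 1) ≤ C2 t * M := by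
    intro t
    unfold Sys.Np
    refine (pi_norm_le_iff_of_nonneg (mul_nonneg (hC2pos t).le hM.le)).2 fun i => ?_
    have hL : S.L' t (Pi.single j 1) i = S.A' t i j := by
      unfold Sys.L'
      rw [Finset.sum_eq_single j]
      · simp
      · intro b _ hb
        simp [Pi.single_eq_of_ne hb]
      · simp
    rw [hL, norm_div, norm_norm, Real.norm_eq_abs, abs_of_pos (hMi.trans_le (ha' t i)),
      div_le_iff₀ (hMi.trans_le (ha' t i))]
    calc ‖S.A' t i j‖ ≤ C2 t := h2 t i j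
      _ = C2 t * (M * M⁻¹) := by rw [mul_inv_cancel₀ hM.ne', mul_one]
      _ ≤ C2 t * (M * a' t i) := by
          refine mul_le_mul_of_nonneg_left ?_ (hC2pos t).le
          exact mul_le_mul_of_nonneg_left (ha' t i) hM.le
      _ = C2 t * M * a' t i := by ring
  calc S.N a a' (Pi.single j 1) ≤ (C1 * M) * ∏ t, (C2 t * M) :=
        mul_le_mul e1 (Finset.prod_le_prod (fun t _ => Np_nonneg _ _ _ _) fun t _ => e2 t)
          (Finset.prod_nonneg fun t _ => Np_nonneg _ _ _ _) (by positivity)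
    _ = C1 * (∏ t, C2 t) * (M * M ^ Fintype.card T) := by
        rw [Finset.prod_mul_distrib, Finset.prod_const, Finset.card_univ]
        ring

theorem PVec_single (P : ℕ) (j : ι) : PVec P (Pi.single j (1 : ℚ)) := by
  intro i
  by_cases h : i = j
  · subst h
    exact ⟨0, 1, by simp⟩
  · exact ⟨0, 0, by simp [h]⟩

/-- The minimal property of the successive minima. -/
def MinProp (S : Sys ι T p) (a : ι → ℝ) (a' : T → ι → ℝ)
    (x : Fin (Fintype.card ι) → ι → ℚ) : Prop :=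
  ∀ j y, PVec (pprod p) y → y ∉ Submodule.span ℚ (x '' {i | i < j}) →
    S.N a a' (x j) ≤ S.N a a' y

theorem MinProp.mono {S : Sys ι T p} {a : ι → ℝ} {a' : T → ι → ℝ}
    {x : Fin (Fintype.card ι) → ι → ℚ} (h : MinProp S a a' x) (hx : LinearIndependent ℚ x)
    (hxP : ∀ j, PVec (pprod p) (x j)) : Monotone fun j => S.N a a' (x j) := by
  intro i j hij
  refine h i (x j) (hxP j) ?_
  exact hx.notMem_span_image (s := {l | l < i}) (by simpa using hij)

theorem exists_single_notMem (W : Submodule ℚ (ι → ℚ)) (hW : W ≠ ⊤) :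
    ∃ j, Pi.single j (1 : ℚ) ∉ W := by
  by_contra h
  push Not at h
  apply hW
  rw [eq_top_iff]
  intro x _
  have : x = ∑ j, x j • (Pi.single j (1 : ℚ) : ι → ℚ) := by
    funext i
    rw [Finset.sum_apply, Finset.sum_eq_single i]
    · simp
    · intro b _ hb
      simp [Pi.single_eq_of_ne (Ne.symm hb)]
    · simp
  rw [this]
  exact W.sum_mem fun j _ => W.smul_mem _ (h j)

theorem span_lt_ne_top {x : Fin (Fintype.card ι) → ι → ℚ} (hx : LinearIndependent ℚ x)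
    (j : Fin (Fintype.card ι)) : Submodule.span ℚ (x '' {i | i < j}) ≠ ⊤ := by
  intro h
  have h1 : x j ∉ Submodule.span ℚ (x '' {i | i < j}) :=
    hx.notMem_span_image (s := {l | l < j}) (by simp)
  rw [h] at h1
  exact h1 Submodule.mem_top

/-- The lower bound for the product, as in task MINKL. -/
def LowerProp (S : Sys ι T p) (c : ℝ) : Prop :=
  ∀ (a : ι → ℝ) (a' : T → ι → ℝ), (∀ i, 0 < a i) → (∀ t i, 0 < a' t i) →
    ∀ x : ι → ι → ℚ, LinearIndependent ℚ x → (∀ j, PVec (pprod p) (x j)) →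
      c ≤ (∏ j, S.N a a' (x j)) * wprod a a'

theorem LowerProp.fin {S : Sys ι T p} {c : ℝ} (h : LowerProp S c) (a : ι → ℝ)
    (a' : T → ι → ℝ) (ha : ∀ i, 0 < a i) (ha' : ∀ t i, 0 < a' t i)
    (x : Fin (Fintype.card ι) → ι → ℚ) (hx : LinearIndependent ℚ x)
    (hxP : ∀ j, PVec (pprod p) (x j)) : c ≤ (∏ j, S.N a a' (x j)) * wprod a a' := by
  have h1 := h a a' ha ha' (fun i => x (Fintype.equivFin ι i))
    (hx.comp _ (Fintype.equivFin ι).injective) (fun j => hxP _)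
  have h2 : ∏ j, S.N a a' (x (Fintype.equivFin ι j)) = ∏ j, S.N a a' (x j) :=
    Fintype.prod_equiv (Fintype.equivFin ι) _ _ fun _ => rfl
  rwa [h2] at h1

/-- The successive minima are bounded by powers of `Q`. -/
theorem minima_PB (S : Sys ι T p) (c : ℝ) (hc : 0 < c) (hlow : LowerProp S c)
    (B : ℝ) (hB : 0 ≤ B) :
    ∃ E : ℝ, 0 ≤ E ∧ ∀ Q : ℝ, 2 ≤ Q → ∀ (a : ι → ℝ) (a' : T → ι → ℝ),
      (∀ i, PB Q B (a i)) → (∀ t i, PB Q B (a' t i)) →
      ∀ x : Fin (Fintype.card ι) → ι → ℚ, LinearIndependent ℚ x →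
      (∀ j, PVec (pprod p) (x j)) → MinProp S a a' x → ∀ j, PB Q E (S.N a a' (x j)) := by
  obtain ⟨C, hC, hCN⟩ := N_single_le S
  obtain ⟨E1, hE1, hE1'⟩ := PB.const hC
  obtain ⟨E2, hE2, hE2'⟩ := PB.const hc
  set R := Fintype.card ι with hR
  set t0 := Fintype.card T with ht0
  set F : ℝ := E1 + (B + t0 * B) with hF
  have hF0 : 0 ≤ F := by positivity
  set G : ℝ := (R : ℝ) * B + (t0 : ℝ) * ((R : ℝ) * B) with hG
  have hG0 : 0 ≤ G := by positivity
  refine ⟨E2 + G + R * F, by positivity, ?_⟩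
  intro Q hQ a a' ha ha' x hx hxP hmin j
  have hQ1 : (1 : ℝ) ≤ Q := by linarith
  have hQ0 : (0 : ℝ) < Q := by linarith
  have hapos : ∀ i, 0 < a i := fun i => (ha i).pos hQ1
  have hapos' : ∀ t i, 0 < a' t i := fun t i => (ha' t i).pos hQ1
  -- upper bound
  have hup : ∀ j, S.N a a' (x j) ≤ Q ^ F := by
    intro j
    obtain ⟨l, hl⟩ := exists_single_notMem _ (span_lt_ne_top hx j)
    refine (hmin j _ (PVec_single _ l) hl).trans ?_
    have hM : (0 : ℝ) < Q ^ B := Real.rpow_pos_of_pos hQ0 _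
    refine (hCN (Q ^ B) a a' hM (fun i => ?_) (fun t i => ?_) l).trans ?_
    · rw [← Real.rpow_neg hQ0.le]
      exact (ha i).1
    · rw [← Real.rpow_neg hQ0.le]
      exact (ha' t i).1
    · rw [hF, Real.rpow_add hQ0, Real.rpow_add hQ0, ← Real.rpow_natCast, ← Real.rpow_mul hQ0.le,
        mul_comm B]
      exact mul_le_mul_of_nonneg_right (hE1' Q hQ).2 (by positivity)
  have hNpos : ∀ j, 0 < S.N a a' (x j) := fun j =>
    N_pos S a a' hapos hapos' (x j) (hx.ne_zero j)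
  -- lower bound
  have hlo : ∀ j, Q ^ (-(E2 + G + R * F)) ≤ S.N a a' (x j) := by
    intro j
    have h1 := hlow.fin a a' hapos hapos' x hx hxP
    have h2 : ∏ i, S.N a a' (x i) ≤ S.N a a' (x j) * (Q ^ F) ^ R := by
      rw [← Finset.mul_prod_erase Finset.univ _ (Finset.mem_univ j)]
      refine mul_le_mul_of_nonneg_left ?_ (hNpos j).le
      calc ∏ i ∈ Finset.univ.erase j, S.N a a' (x i) ≤ ∏ i ∈ Finset.univ.erase j, Q ^ F :=
            Finset.prod_le_prod (fun i _ => (hNpos i).le) fun i _ => hup i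
        _ = (Q ^ F) ^ (Finset.univ.erase j).card := Finset.prod_const _
        _ ≤ (Q ^ F) ^ R := by
            refine pow_le_pow_right₀ (Real.one_le_rpow hQ1 hF0) ?_
            exact (Finset.card_le_univ _).trans_eq (Fintype.card_fin R)
    have h3 : wprod a a' ≤ Q ^ G := (PB.wprod hQ1 ha ha').2
    have h4 : c ≤ S.N a a' (x j) * (Q ^ F) ^ R * Q ^ G := by
      refine h1.trans ?_
      exact mul_le_mul h2 h3 (wprod_pos hapos hapos').le (by have := hNpos j; positivity)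
    have h5 := (hE2' Q hQ).1
    have h6 : Q ^ (-(E2 + G + R * F)) * ((Q ^ F) ^ R * Q ^ G) = Q ^ (-E2) := by
      rw [← Real.rpow_natCast, ← Real.rpow_mul hQ0.le, ← Real.rpow_add hQ0, ← Real.rpow_add hQ0]
      congr 1
      ring
    have h7 : 0 < (Q ^ F) ^ R * Q ^ G := by positivity
    have h8 : Q ^ (-(E2 + G + R * F)) * ((Q ^ F) ^ R * Q ^ G) ≤
        S.N a a' (x j) * ((Q ^ F) ^ R * Q ^ G) := by
      rw [h6, ← mul_assoc]
      exact h5.trans h4
    exact le_of_mul_le_mul_right h8 h7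
  refine ⟨hlo j, (hup j).trans (Real.rpow_le_rpow_of_exponent_le hQ1 ?_)⟩
  have : F ≤ R * F := by
    have hR1 : (1 : ℝ) ≤ R := by
      have : 0 < R := Fin.pos j
      exact_mod_cast this
    nlinarith
  linarith

end Pool.Agent.Helper94.Sub
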