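import Pool.Agent.Helper10.Sub.CompDefs

/-!
# Subspace theorem project: elementary properties of the size `N`
-/

set_option autoImplicit false
set_option linter.unusedSectionVars false

namespace Pool.Agent.Helper94.Sub

open Pool.Agent.Helper10.Sub

variable {ι : Type} [Fintype ι] [DecidableEq ι] {T : Type} [Fintype T] {p : T → ℕ}
  [∀ t, Fact (p t).Prime]

/-! ### Scaling -/

theorem L_smul (S : Sys ι T p) (c : ℚ) (x : ι → ℚ) : S.L (c • x) = fun i => (c : ℝ) * S.L x i := by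
  funext i
  simp only [Sys.L, Pi.smul_apply, smul_eq_mul, Finset.mul_sum]
  refine Finset.sum_congr rfl fun j _ => ?_
  push_cast
  ring

theorem L'_smul (S : Sys ι T p) (t : T) (c : ℚ) (x : ι → ℚ) :
    S.L' t (c • x) = fun i => (c : ℚ_[p t]) * S.L' t x i := by
  funext i
  simp only [Sys.L', Pi.smul_apply, smul_eq_mul, Finset.mul_sum]
  refine Finset.sum_congr rfl fun j _ => ?_
  push_cast
  ring

theorem Ninf_smul (S : Sys ι T p) (a : ι → ℝ) (c : ℚ) (x : ι → ℚ) :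
    S.Ninf a (c • x) = |(c : ℝ)| * S.Ninf a x := by
  unfold Sys.Ninf
  rw [L_smul]
  have h : (fun i => (c : ℝ) * S.L x i / a i) = (c : ℝ) • (fun i => S.L x i / a i) := by
    funext i
    simp only [Pi.smul_apply, smul_eq_mul]
    ring
  rw [h, norm_smul, Real.norm_eq_abs]

theorem Np_smul (S : Sys ι T p) (t : T) (a' : ι → ℝ) (c : ℚ) (x : ι → ℚ) :
    S.Np t a' (c • x) = ‖(c : ℚ_[p t])‖ * S.Np t a' x := by
  unfold Sys.Np
  rw [L'_smul]
  have h : (fun i => ‖(c : ℚ_[p t]) * S.L' t x i‖ / a' i) =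
      ‖(c : ℚ_[p t])‖ • (fun i => ‖S.L' t x i‖ / a' i) := by
    funext i
    simp only [Pi.smul_apply, smul_eq_mul, norm_mul]
    ring
  rw [h, norm_smul, norm_norm]

/-- The factor by which `N` is multiplied. -/
noncomputable def fac (p : T → ℕ) [∀ t, Fact (p t).Prime] (c : ℚ) : ℝ :=
  |(c : ℝ)| * ∏ t, ‖(c : ℚ_[p t])‖

theorem N_smul (S : Sys ι T p) (a : ι → ℝ) (a' : T → ι → ℝ) (c : ℚ) (x : ι → ℚ) :
    S.N a a' (c • x) = fac p c * S.N a a' x := by
  unfold Sys.N fac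
  rw [Ninf_smul]
  simp only [Np_smul, Finset.prod_mul_distrib]
  ring

theorem Ninf_nonneg (S : Sys ι T p) (a : ι → ℝ) (x : ι → ℚ) : 0 ≤ S.Ninf a x := norm_nonneg _

theorem Np_nonneg (S : Sys ι T p) (t : T) (a' : ι → ℝ) (x : ι → ℚ) : 0 ≤ S.Np t a' x :=
  norm_nonneg _

theorem N_nonneg (S : Sys ι T p) (a : ι → ℝ) (a' : T → ι → ℝ) (x : ι → ℚ) : 0 ≤ S.N a a' x :=
  mul_nonneg (Ninf_nonneg _ _ _) (Finset.prod_nonneg fun _ _ => Np_nonneg _ _ _ _)

theorem fac_nonneg (c : ℚ) : 0 ≤ fac p c :=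
  mul_nonneg (abs_nonneg _) (Finset.prod_nonneg fun _ _ => norm_nonneg _)

theorem fac_pos {c : ℚ} (hc : c ≠ 0) : 0 < fac p c := by
  refine mul_pos (abs_pos.2 (by exact_mod_cast hc)) (Finset.prod_pos fun t _ => ?_)
  rw [norm_pos_iff]
  exact_mod_cast hc

theorem fac_mul (c d : ℚ) : fac p (c * d) = fac p c * fac p d := by
  unfold fac
  push_cast
  simp only [abs_mul, norm_mul, Finset.prod_mul_distrib]
  ring

/-! ### Recovering a vector from the forms -/

theorem sum_inv_L (S : Sys ι T p) (x : ι → ℚ) (j : ι) :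
    (x j : ℝ) = ∑ i, S.A⁻¹ j i * S.L x i := by
  have h0 : IsUnit S.A.det := S.detA.isUnit
  have h1 : S.L x = S.A.mulVec (fun j => (x j : ℝ)) := by
    funext i
    rfl
  have h2 : S.A⁻¹.mulVec (S.L x) = fun j => (x j : ℝ) := by
    rw [h1, Matrix.mulVec_mulVec, Matrix.nonsing_inv_mul _ h0, Matrix.one_mulVec]
  exact (congrFun h2 j).symm

theorem sum_inv_L' (S : Sys ι T p) (t : T) (x : ι → ℚ) (j : ι) :
    (x j : ℚ_[p t]) = ∑ i, (S.A' t)⁻¹ j i * S.L' t x i := by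
  have h0 : IsUnit (S.A' t).det := (S.detA' t).isUnit
  have h1 : S.L' t x = (S.A' t).mulVec (fun j => (x j : ℚ_[p t])) := by
    funext i
    rfl
  have h2 : (S.A' t)⁻¹.mulVec (S.L' t x) = fun j => (x j : ℚ_[p t]) := by
    rw [h1, Matrix.mulVec_mulVec, Matrix.nonsing_inv_mul _ h0, Matrix.one_mulVec]
  exact (congrFun h2 j).symm

/-- A constant bounding the entries of the inverse matrix at infinity. -/
noncomputable def cA (S : Sys ι T p) : ℝ := 1 + ∑ j, ∑ i, |S.A⁻¹ j i|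

noncomputable def cA' (S : Sys ι T p) (t : T) : ℝ := 1 + ∑ j, ∑ i, ‖(S.A' t)⁻¹ j i‖

theorem one_le_cA (S : Sys ι T p) : 1 ≤ cA S := by
  have : 0 ≤ ∑ j, ∑ i, |S.A⁻¹ j i| :=
    Finset.sum_nonneg fun _ _ => Finset.sum_nonneg fun _ _ => abs_nonneg _
  unfold cA
  linarith

theorem one_le_cA' (S : Sys ι T p) (t : T) : 1 ≤ cA' S t := by
  have : 0 ≤ ∑ j, ∑ i, ‖(S.A' t)⁻¹ j i‖ :=
    Finset.sum_nonneg fun _ _ => Finset.sum_nonneg fun _ _ => norm_nonneg _
  unfold cA'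
  linarith

theorem abs_L_le (S : Sys ι T p) (a : ι → ℝ) (ha : ∀ i, 0 < a i) (x : ι → ℚ) (i : ι) :
    |S.L x i| ≤ a i * S.Ninf a x := by
  have h1 : ‖S.L x i / a i‖ ≤ S.Ninf a x := norm_le_pi_norm (fun i => S.L x i / a i) i
  rw [norm_div, Real.norm_eq_abs, Real.norm_eq_abs, abs_of_pos (ha i), div_le_iff₀ (ha i)] at h1
  linarith

theorem norm_L'_le (S : Sys ι T p) (t : T) (a' : ι → ℝ) (ha : ∀ i, 0 < a' i) (x : ι → ℚ) (i : ι) :
    ‖S.L' t x i‖ ≤ a' i * S.Np t a' x := by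
  have h1 : ‖‖S.L' t x i‖ / a' i‖ ≤ S.Np t a' x :=
    norm_le_pi_norm (fun i => ‖S.L' t x i‖ / a' i) i
  rw [norm_div, norm_norm, Real.norm_eq_abs, abs_of_pos (ha i), div_le_iff₀ (ha i)] at h1
  linarith

theorem abs_coord_le (S : Sys ι T p) (a : ι → ℝ) (M : ℝ) (ha : ∀ i, 0 < a i) (haM : ∀ i, a i ≤ M)
    (x : ι → ℚ) (j : ι) : |(x j : ℝ)| ≤ cA S * M * S.Ninf a x := by
  have hN := Ninf_nonneg S a x
  have hM : 0 ≤ M := (ha j).le.trans (haM j)
  have hb : ∀ i, |S.L x i| ≤ M * S.Ninf a x := fun i =>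
    (abs_L_le S a ha x i).trans (mul_le_mul_of_nonneg_right (haM i) hN)
  have hMN : 0 ≤ M * S.Ninf a x := mul_nonneg hM hN
  rw [sum_inv_L S x j]
  calc |∑ i, S.A⁻¹ j i * S.L x i| ≤ ∑ i, |S.A⁻¹ j i * S.L x i| := Finset.abs_sum_le_sum_abs _ _
    _ = ∑ i, |S.A⁻¹ j i| * |S.L x i| := by simp only [abs_mul]
    _ ≤ ∑ i, |S.A⁻¹ j i| * (M * S.Ninf a x) :=
        Finset.sum_le_sum fun i _ => mul_le_mul_of_nonneg_left (hb i) (abs_nonneg _)
    _ = (∑ i, |S.A⁻¹ j i|) * (M * S.Ninf a x) := by rw [Finset.sum_mul]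
    _ ≤ cA S * (M * S.Ninf a x) := by
        refine mul_le_mul_of_nonneg_right ?_ hMN
        have h1 : (∑ i, |S.A⁻¹ j i|) ≤ ∑ j, ∑ i, |S.A⁻¹ j i| :=
          Finset.single_le_sum (f := fun j => ∑ i, |S.A⁻¹ j i|)
            (fun j _ => Finset.sum_nonneg fun _ _ => abs_nonneg _) (Finset.mem_univ j)
        unfold cA
        linarith
    _ = cA S * M * S.Ninf a x := by ring

theorem norm_coord_le (S : Sys ι T p) (t : T) (a' : ι → ℝ) (M : ℝ) (ha : ∀ i, 0 < a' i)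
    (haM : ∀ i, a' i ≤ M) (x : ι → ℚ) (j : ι) :
    ‖(x j : ℚ_[p t])‖ ≤ cA' S t * M * S.Np t a' x := by
  have hN := Np_nonneg S t a' x
  have hM : 0 ≤ M := (ha j).le.trans (haM j)
  have hb : ∀ i, ‖S.L' t x i‖ ≤ M * S.Np t a' x := fun i =>
    (norm_L'_le S t a' ha x i).trans (mul_le_mul_of_nonneg_right (haM i) hN)
  have hMN : 0 ≤ M * S.Np t a' x := mul_nonneg hM hN
  rw [sum_inv_L' S t x j]
  calc ‖∑ i, (S.A' t)⁻¹ j i * S.L' t x i‖ ≤ ∑ i, ‖(S.A' t)⁻¹ j i * S.L' t x i‖ := norm_sum_le _ _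
    _ = ∑ i, ‖(S.A' t)⁻¹ j i‖ * ‖S.L' t x i‖ := by simp only [norm_mul]
    _ ≤ ∑ i, ‖(S.A' t)⁻¹ j i‖ * (M * S.Np t a' x) :=
        Finset.sum_le_sum fun i _ => mul_le_mul_of_nonneg_left (hb i) (norm_nonneg _)
    _ = (∑ i, ‖(S.A' t)⁻¹ j i‖) * (M * S.Np t a' x) := by rw [Finset.sum_mul]
    _ ≤ cA' S t * (M * S.Np t a' x) := by
        refine mul_le_mul_of_nonneg_right ?_ hMN
        have h1 : (∑ i, ‖(S.A' t)⁻¹ j i‖) ≤ ∑ j, ∑ i, ‖(S.A' t)⁻¹ j i‖ :=
          Finset.single_le_sum (f := fun j => ∑ i, ‖(S.A' t)⁻¹ j i‖)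
            (fun j _ => Finset.sum_nonneg fun _ _ => norm_nonneg _) (Finset.mem_univ j)
        unfold cA'
        linarith
    _ = cA' S t * M * S.Np t a' x := by ring

theorem Ninf_pos (S : Sys ι T p) (a : ι → ℝ) (ha : ∀ i, 0 < a i) (x : ι → ℚ) (hx : x ≠ 0) :
    0 < S.Ninf a x := by
  obtain ⟨j, hj⟩ := Function.ne_iff.1 hx
  rcases (Ninf_nonneg S a x).lt_or_eq with h | h
  · exact h
  · exfalso
    have h1 := abs_coord_le S a (∑ i, a i) ha
      (fun i => Finset.single_le_sum (fun i _ => (ha i).le) (Finset.mem_univ i)) x j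
    rw [← h, mul_zero] at h1
    have h2 : (x j : ℝ) = 0 := abs_eq_zero.1 (le_antisymm h1 (abs_nonneg _))
    exact hj (by simpa using h2)

theorem Np_pos (S : Sys ι T p) (t : T) (a' : ι → ℝ) (ha : ∀ i, 0 < a' i) (x : ι → ℚ)
    (hx : x ≠ 0) : 0 < S.Np t a' x := by
  obtain ⟨j, hj⟩ := Function.ne_iff.1 hx
  rcases (Np_nonneg S t a' x).lt_or_eq with h | h
  · exact h
  · exfalso
    have h1 := norm_coord_le S t a' (∑ i, a' i) ha
      (fun i => Finset.single_le_sum (fun i _ => (ha i).le) (Finset.mem_univ i)) x j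
    rw [← h, mul_zero] at h1
    have h2 : (x j : ℚ_[p t]) = 0 := norm_eq_zero.1 (le_antisymm h1 (norm_nonneg _))
    exact hj (by simpa using h2)

theorem N_pos (S : Sys ι T p) (a : ι → ℝ) (a' : T → ι → ℝ) (ha : ∀ i, 0 < a i)
    (ha' : ∀ t i, 0 < a' t i) (x : ι → ℚ) (hx : x ≠ 0) : 0 < S.N a a' x :=
  mul_pos (Ninf_pos S a ha x hx) (Finset.prod_pos fun t _ => Np_pos S t _ (ha' t) x hx)

/-! ### The product formula for `ℤ[1/P]` -/

theorem norm_int_zpow (t : T) (z : ℤ) (hz : z ≠ 0) :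
    ‖((z : ℚ) : ℚ_[p t])‖ = ((p t : ℝ) ^ (padicValNat (p t) z.natAbs))⁻¹ := by
  have hz' : (z : ℚ) ≠ 0 := by exact_mod_cast hz
  rw [Padic.eq_padicNorm, padicNorm.eq_zpow_of_nonzero hz', padicValRat.of_int]
  push_cast
  rw [zpow_neg]
  congr 1

theorem one_le_fac_int (hp : Function.Injective p) (z : ℤ) (hz : z ≠ 0) : 1 ≤ fac p (z : ℚ) := by
  classical
  have h1 : (∏ t, p t ^ padicValNat (p t) z.natAbs) ∣ z.natAbs := by
    refine Fintype.prod_dvd_of_isRelPrime ?_ ?_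
    · intro t t' htt'
      rw [Function.onFun, ← Nat.coprime_iff_isRelPrime]
      refine Nat.Coprime.pow _ _ ?_
      rw [Nat.coprime_primes (Fact.out : (p t).Prime) (Fact.out : (p t').Prime)]
      exact fun h => htt' (hp h)
    · intro t
      exact pow_padicValNat_dvd
  have h2 : (∏ t, p t ^ padicValNat (p t) z.natAbs) ≤ z.natAbs :=
    Nat.le_of_dvd (Int.natAbs_pos.2 hz) h1
  have h3 : (0 : ℝ) < ∏ t, (p t : ℝ) ^ padicValNat (p t) z.natAbs :=
    Finset.prod_pos fun t _ => pow_pos (by exact_mod_cast (Fact.out : (p t).Prime).pos) _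
  unfold fac
  have h4 : ∏ t, ‖((z : ℚ) : ℚ_[p t])‖ = (∏ t, (p t : ℝ) ^ padicValNat (p t) z.natAbs)⁻¹ := by
    rw [← Finset.prod_inv_distrib]
    exact Finset.prod_congr rfl fun t _ => norm_int_zpow t z hz
  rw [h4, ← div_eq_mul_inv, le_div_iff₀ h3, one_mul]
  have h5 : |(((z : ℤ) : ℚ) : ℝ)| = ((z.natAbs : ℕ) : ℝ) := by
    rw [Nat.cast_natAbs]
    push_cast
    rfl
  rw [h5]
  exact_mod_cast h2

theorem fac_one : fac p 1 = 1 := by
  simp [fac]

theorem fac_prime (hp : Function.Injective p) (s : T) : fac p (p s : ℚ) = 1 := by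
  classical
  have hps : (p s).Prime := Fact.out
  unfold fac
  have h1 : ∏ t, ‖((p s : ℚ) : ℚ_[p t])‖ = (p s : ℝ)⁻¹ := by
    rw [Finset.prod_eq_single s]
    · have h : ((p s : ℚ) : ℚ_[p s]) = (p s : ℚ_[p s]) := by norm_cast
      rw [h, Padic.norm_p]
    · intro t _ hts
      have h : ((p s : ℚ) : ℚ_[p t]) = (p s : ℚ_[p t]) := by norm_cast
      rw [h, Padic.norm_natCast_eq_one_iff, Nat.coprime_primes (Fact.out : (p t).Prime) hps]
      exact fun h => hts (hp h)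
    · intro h
      exact absurd (Finset.mem_univ s) h
  rw [h1]
  have h2 : (0 : ℝ) < p s := by exact_mod_cast hps.pos
  have h3 : |((p s : ℚ) : ℝ)| = p s := by
    push_cast
    exact abs_of_pos h2
  rw [h3, mul_inv_cancel₀ h2.ne']

theorem fac_prod {κ : Type} (s : Finset κ) (f : κ → ℚ) : fac p (∏ i ∈ s, f i) = ∏ i ∈ s, fac p (f i) := by
  classical
  induction s using Finset.induction_on with
  | empty => simp [fac_one]
  | insert i s hi ih => rw [Finset.prod_insert hi, Finset.prod_insert hi, fac_mul, ih]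

theorem fac_pprod (hp : Function.Injective p) : fac p (pprod p : ℚ) = 1 := by
  unfold pprod
  push_cast
  rw [fac_prod]
  exact Finset.prod_eq_one fun t _ => fac_prime hp t

theorem fac_pow (c : ℚ) (k : ℕ) : fac p (c ^ k) = fac p c ^ k := by
  induction k with
  | zero => simp [fac_one]
  | succ k ih => rw [pow_succ, fac_mul, ih, pow_succ]

theorem pprod_ne_zero : (pprod p : ℚ) ≠ 0 := by
  unfold pprod
  push_cast
  exact Finset.prod_ne_zero_iff.2 fun t _ => by exact_mod_cast (Fact.out : (p t).Prime).ne_zero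

/-- The product formula. -/
theorem one_le_fac (hp : Function.Injective p) (c : ℚ) (hc : PInt (pprod p) c) (hc0 : c ≠ 0) :
    1 ≤ fac p c := by
  obtain ⟨k, z, hz⟩ := hc
  have h1 : fac p (c * (pprod p : ℚ) ^ k) = fac p c := by
    rw [fac_mul, fac_pow, fac_pprod hp, one_pow, mul_one]
  rw [← h1, hz]
  apply one_le_fac_int hp
  rintro rfl
  rw [Int.cast_zero] at hz
  exact (mul_ne_zero hc0 (pow_ne_zero _ pprod_ne_zero)) hz

/-! ### Primitive vectors -/

theorem exists_common_pow {P : ℕ} {x : ι → ℚ} (hx : PVec P x) :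
    ∃ (k : ℕ) (z : ι → ℤ), ∀ i, x i * (P : ℚ) ^ k = z i := by
  choose k z hz using hx
  refine ⟨∑ i, k i, fun i => z i * (P : ℤ) ^ ((∑ i, k i) - k i), fun i => ?_⟩
  have h1 : k i ≤ ∑ i, k i := Finset.single_le_sum (fun _ _ => Nat.zero_le _) (Finset.mem_univ i)
  push_cast
  rw [← hz i, mul_assoc, ← pow_add, Nat.add_sub_cancel' h1]

/-- Every nonzero `P`-integral vector is a `P`-integral multiple of a primitive vector. -/
theorem exists_prim (x : ι → ℚ) (hx : PVec (pprod p) x) (hx0 : x ≠ 0) :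
    ∃ (m : ι → ℤ) (c : ℚ), Prim m ∧ PInt (pprod p) c ∧ c ≠ 0 ∧ x = c • (fun i => (m i : ℚ)) := by
  obtain ⟨k, z, hz⟩ := exists_common_pow hx
  have hP : (pprod p : ℚ) ^ k ≠ 0 := pow_ne_zero _ pprod_ne_zero
  have hz0 : ∃ i ∈ Finset.univ, z i ≠ 0 := by
    obtain ⟨i, hi⟩ := Function.ne_iff.1 hx0
    refine ⟨i, Finset.mem_univ i, fun h => ?_⟩
    have h1 := hz i
    rw [h, Int.cast_zero] at h1
    exact (mul_ne_zero hi hP) h1
  obtain ⟨g, hg1, hg2⟩ := Finset.extract_gcd z (Finset.univ_nonempty_iff.2 ⟨hz0.choose⟩)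
  set d := Finset.univ.gcd z with hd
  have hd0 : d ≠ 0 := by
    intro h
    obtain ⟨i, -, hi⟩ := hz0
    apply hi
    rw [hg1 i (Finset.mem_univ i), h, zero_mul]
  refine ⟨g, (d : ℚ) / (pprod p : ℚ) ^ k, ?_, ?_, ?_, ?_⟩
  · intro e he
    have h1 : e ∣ Finset.univ.gcd g := Finset.dvd_gcd fun i _ => he i
    rw [hg2] at h1
    exact isUnit_of_dvd_one h1
  · exact ⟨k, d, by field_simp⟩
  · exact div_ne_zero (by exact_mod_cast hd0) hP
  · funext i
    have h1 := hz i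
    rw [hg1 i (Finset.mem_univ i)] at h1
    simp only [Pi.smul_apply, smul_eq_mul]
    push_cast at h1
    field_simp
    linarith

/-- A primitive vector has `p`-adic norm one. -/
theorem exists_norm_eq_one (t : T) (m : ι → ℤ) (hm : Prim m) :
    ∃ i, ‖(((m i : ℤ) : ℚ) : ℚ_[p t])‖ = 1 := by
  by_contra h
  push Not at h
  have h1 : ∀ i, ((p t : ℕ) : ℤ) ∣ m i := by
    intro i
    have h2 : ((((m i : ℤ) : ℚ)) : ℚ_[p t]) = ((m i : ℤ) : ℚ_[p t]) := by norm_cast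
    have h3 := h i
    rw [h2] at h3
    exact Padic.norm_intCast_lt_one_iff.1 (lt_of_le_of_ne (Padic.norm_int_le_one _) h3)
  have h2 := hm _ h1
  rw [Int.ofNat_isUnit, Nat.isUnit_iff] at h2
  exact (Fact.out : (p t).Prime).one_lt.ne' h2

theorem htv_le_iff (m : ι → ℤ) (K : ℝ) (hK : 0 ≤ K) : htv m ≤ K ↔ ∀ i, |(m i : ℝ)| ≤ K := by
  unfold htv
  constructor
  · intro h i
    have h1 : (m i).natAbs ≤ Finset.univ.sup fun i => (m i).natAbs :=
      Finset.le_sup (f := fun i => (m i).natAbs) (Finset.mem_univ i)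
    have h2 : ((m i).natAbs : ℝ) = |(m i : ℝ)| := by rw [Nat.cast_natAbs]; push_cast; rfl
    rw [← h2]
    exact (by exact_mod_cast h1 : ((m i).natAbs : ℝ) ≤
      ((Finset.univ.sup fun i => (m i).natAbs : ℕ) : ℝ)).trans h
  · intro h
    by_cases hne : (Finset.univ : Finset ι).Nonempty
    · obtain ⟨i, -, hi⟩ := Finset.exists_mem_eq_sup Finset.univ hne (fun i => (m i).natAbs)
      rw [hi]
      have h2 : ((m i).natAbs : ℝ) = |(m i : ℝ)| := by rw [Nat.cast_natAbs]; push_cast; rfl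
      rw [h2]
      exact h i
    · rw [Finset.not_nonempty_iff_eq_empty.1 hne]
      simpa using hK

/-- Finitely many primitive vectors have bounded size for bounded weights. -/
theorem finite_prim (S : Sys ι T p) (K M : ℝ) :
    {m : ι → ℤ | Prim m ∧ ∃ (a : ι → ℝ) (a' : T → ι → ℝ), (∀ i, 0 < a i ∧ a i ≤ M) ∧
      (∀ t i, 0 < a' t i ∧ a' t i ≤ M) ∧ S.N a a' (fun i => (m i : ℚ)) ≤ K}.Finite := by
  set R : ℝ := cA S * M * (∏ t, (cA' S t * M)) * K with hR
  have hsub : {m : ι → ℤ | Prim m ∧ ∃ (a : ι → ℝ) (a' : T → ι → ℝ), (∀ i, 0 < a i ∧ a i ≤ M) ∧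
      (∀ t i, 0 < a' t i ∧ a' t i ≤ M) ∧ S.N a a' (fun i => (m i : ℚ)) ≤ K} ⊆
      Set.univ.pi fun _ : ι => Set.Icc (-⌈R⌉) ⌈R⌉ := by
    rintro m ⟨hm, a, a', ha, ha', hN⟩ j -
    have hMpos : 0 < M := (ha j).1.trans_le (ha j).2
    have h1 := abs_coord_le S a M (fun i => (ha i).1) (fun i => (ha i).2) (fun i => (m i : ℚ)) j
    have h2 : ∀ t, 1 ≤ cA' S t * M * S.Np t (a' t) (fun i => (m i : ℚ)) := by
      intro t
      obtain ⟨i, hi⟩ := exists_norm_eq_one (p := p) t m hm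
      have h := norm_coord_le S t (a' t) M (fun i => (ha' t i).1) (fun i => (ha' t i).2)
        (fun i => (m i : ℚ)) i
      exact hi.symm.le.trans h
    have h3 : 1 ≤ ∏ t, (cA' S t * M * S.Np t (a' t) (fun i => (m i : ℚ))) := by
      have := Finset.prod_le_prod (s := Finset.univ) (f := fun _ : T => (1 : ℝ))
        (g := fun t => cA' S t * M * S.Np t (a' t) (fun i => (m i : ℚ)))
        (fun _ _ => zero_le_one) (fun t _ => h2 t)
      simpa using this
    have h4 : |((m j : ℚ) : ℝ)| ≤ R := by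
      have hpos : 0 ≤ cA S * M * S.Ninf a (fun i => (m i : ℚ)) :=
        mul_nonneg (mul_nonneg (zero_le_one.trans (one_le_cA S)) hMpos.le) (Ninf_nonneg _ _ _)
      calc |((m j : ℚ) : ℝ)| ≤ cA S * M * S.Ninf a (fun i => (m i : ℚ)) := h1
        _ ≤ cA S * M * S.Ninf a (fun i => (m i : ℚ)) *
            ∏ t, (cA' S t * M * S.Np t (a' t) (fun i => (m i : ℚ))) :=
            le_mul_of_one_le_right hpos h3
        _ = cA S * M * (∏ t, (cA' S t * M)) * S.N a a' (fun i => (m i : ℚ)) := by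
            rw [Finset.prod_mul_distrib, Sys.N]
            ring
        _ ≤ R := by
            rw [hR]
            refine mul_le_mul_of_nonneg_left hN ?_
            refine mul_nonneg (mul_nonneg (zero_le_one.trans (one_le_cA S)) hMpos.le) ?_
            exact Finset.prod_nonneg fun t _ =>
              mul_nonneg (zero_le_one.trans (one_le_cA' S t)) hMpos.le
    have h5 : |((m j : ℤ) : ℝ)| ≤ (⌈R⌉ : ℝ) := by
      have : |((m j : ℚ) : ℝ)| = |((m j : ℤ) : ℝ)| := by push_cast; rfl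
      rw [← this]
      exact h4.trans (Int.le_ceil R)
    rw [abs_le] at h5
    rw [Set.mem_Icc]
    constructor
    · exact_mod_cast h5.1
    · exact_mod_cast h5.2
  exact (Set.Finite.pi' fun _ => Set.finite_Icc _ _).subset (by
    intro m hm
    exact fun i => hsub hm i (Set.mem_univ i))

/-- Finitely many lines contain the vectors of bounded size for bounded weights. -/
theorem finite_lines (S : Sys ι T p) (hp : Function.Injective p) (K M : ℝ) :
    ∃ F : Finset (Submodule ℚ (ι → ℚ)), (∀ W ∈ F, ∃ m : ι → ℚ, W = Submodule.span ℚ {m}) ∧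
      ∀ (a : ι → ℝ) (a' : T → ι → ℝ), (∀ i, 0 < a i ∧ a i ≤ M) → (∀ t i, 0 < a' t i ∧ a' t i ≤ M) →
      ∀ x : ι → ℚ, PVec (pprod p) x → x ≠ 0 → S.N a a' x ≤ K → Submodule.span ℚ {x} ∈ F := by
  classical
  have hfin := finite_prim S K M
  refine ⟨hfin.toFinset.image fun m => Submodule.span ℚ {fun i => (m i : ℚ)}, ?_, ?_⟩
  · intro W hW
    obtain ⟨m, -, rfl⟩ := Finset.mem_image.1 hW
    exact ⟨_, rfl⟩
  · intro a a' ha ha' x hx hx0 hN
    obtain ⟨m, c, hm, hc, hc0, rfl⟩ := exists_prim (p := p) x hx hx0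
    refine Finset.mem_image.2 ⟨m, ?_, ?_⟩
    · rw [Set.Finite.mem_toFinset]
      refine ⟨hm, a, a', ha, ha', ?_⟩
      rw [N_smul] at hN
      exact (le_mul_of_one_le_left (N_nonneg _ _ _ _) (one_le_fac hp c hc hc0)).trans hN
    · exact (Submodule.span_singleton_smul_eq (IsUnit.mk0 c hc0) _).symm

end Pool.Agent.Helper94.Sub
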