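import Pool.Agent.Helper94.Sub.PropB

/-!
# Subspace theorem project: the parametric subspace theorem from its inputs
-/

set_option autoImplicit false
set_option linter.unusedSectionVars false

namespace Pool.Agent.Helper94.Sub

open Pool.Agent.Helper10.Sub Pool.Agent.Helper1.Sub

/-- There is a gap among the minima. -/
theorem exists_gap {n : ℕ} (hn : 2 ≤ n) (l : Fin n → ℝ) (hl : ∀ i, 0 < l i)
    (h0 : l ⟨0, by omega⟩ ≤ 1) (θ : ℝ) (hθ : 1 ≤ θ) (hprod : θ ^ (n * n) < ∏ i, l i) :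
    ∃ (k : ℕ) (hk : 1 ≤ k) (hkn : k < n), 1 < l ⟨k, hkn⟩ ∧
      θ * l ⟨k - 1, by omega⟩ ≤ l ⟨k, hkn⟩ := by
  by_contra h
  push Not at h
  have hθ0 : 0 < θ := by linarith
  have hind : ∀ k (hkn : k < n), l ⟨k, hkn⟩ ≤ θ ^ k := by
    intro k
    induction k with
    | zero =>
      intro hkn
      simpa using h0
    | succ k ih =>
      intro hkn
      rcases le_or_gt (l ⟨k + 1, hkn⟩) 1 with h1 | h1
      · exact h1.trans (one_le_pow₀ hθ)
      · have h2 := h (k + 1) (by omega) hkn h1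
        have h3 := ih (by omega)
        rw [pow_succ']
        refine h2.le.trans (mul_le_mul_of_nonneg_left ?_ hθ0.le)
        simpa using h3
  have h1 : ∏ i, l i ≤ ∏ _i : Fin n, θ ^ n := by
    refine Finset.prod_le_prod (fun i _ => (hl i).le) fun i _ => ?_
    refine (hind i.1 i.2).trans ?_
    exact pow_le_pow_right₀ hθ i.2.le
  rw [Finset.prod_const, Finset.card_univ, Fintype.card_fin, ← pow_mul] at h1
  linarith

variable {T : Type} [Fintype T] {p : T → ℕ} [∀ t, Fact (p t).Prime]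

/-- Minimal vectors indexed by `Fin n`. -/
theorem exists_minimal_fin (I : Inputs T p) {n : ℕ} (S : Sys (Fin n) T p) : ∃ cL C2 : ℝ, 0 < cL ∧
    ∀ (a : Fin n → ℝ) (a' : T → Fin n → ℝ), (∀ i, 0 < a i) → (∀ t i, 0 < a' t i) →
    ∃ x : Fin n → Fin n → ℚ, LinearIndependent ℚ x ∧ (∀ j, PVec (pprod p) (x j)) ∧
      (∀ j y, PVec (pprod p) y → y ∉ Submodule.span ℚ (x '' {i | i < j}) →
        S.N a a' (x j) ≤ S.N a a' y) ∧
      Monotone (fun j => S.N a a' (x j)) ∧ (∏ j, S.N a a' (x j)) * wprod a a' ≤ C2 ∧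
      cL ≤ (∏ j, S.N a a' (x j)) * wprod a a' := by
  obtain ⟨cL, hcL, hlow⟩ := I.low (Fin n) S
  obtain ⟨C2, hC2, hmink⟩ := I.mink (Fin n) S
  refine ⟨cL, C2, hcL, ?_⟩
  intro a a' ha ha'
  obtain ⟨X, hX, hXP, hmin, hprod⟩ := hmink a a' ha ha'
  have hmono := hmin.mono hX hXP
  set e : Fin n ≃o Fin (Fintype.card (Fin n)) := Fin.castOrderIso (Fintype.card_fin n).symm with he
  have himg : ∀ j : Fin n, (fun i => X (e i)) '' {i | i < j} = X '' {i | i < e j} := by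
    intro j
    ext v
    constructor
    · rintro ⟨i, hi, rfl⟩
      exact ⟨e i, e.lt_iff_lt.2 hi, rfl⟩
    · rintro ⟨i, hi, rfl⟩
      refine ⟨e.symm i, ?_, by simp⟩
      have : i < e j := hi
      rw [← e.apply_symm_apply i] at this
      exact e.lt_iff_lt.1 this
  have hpr : ∏ j : Fin n, S.N a a' (X (e j)) = ∏ j, S.N a a' (X j) :=
    Fintype.prod_equiv e.toEquiv _ _ fun _ => rfl
  refine ⟨fun j => X (e j), hX.comp _ e.injective, fun j => hXP _, ?_, ?_, ?_, ?_⟩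
  · intro j y hy hyn
    rw [himg] at hyn
    exact hmin (e j) y hy hyn
  · intro i j hij
    exact hmono (e.monotone hij)
  · rw [hpr]
    exact hprod
  · rw [hpr]
    exact hlow.fin a a' ha ha' X hX hXP

theorem subspace_fin (I : Inputs T p) (hp : Function.Injective p) {n : ℕ} (hn : 2 ≤ n)
    (S : Sys (Fin n) T p) (δ B : ℝ) (hδ : 0 < δ) :
    ∃ 𝒲 : Finset (Submodule ℚ (Fin n → ℚ)), (∀ W ∈ 𝒲, W ≠ ⊤) ∧
    ∀ (Q : ℝ) (a : Fin n → ℝ) (a' : T → Fin n → ℝ), 1 ≤ Q →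
      (∀ i, Q ^ (-B) ≤ a i ∧ a i ≤ Q ^ B) → (∀ t i, Q ^ (-B) ≤ a' t i ∧ a' t i ≤ Q ^ B) →
      wprod a a' ≤ Q ^ (-δ) → ∀ x : Fin n → ℚ, PVec (pprod p) x → S.N a a' x ≤ 1 →
      ∃ W ∈ 𝒲, x ∈ W := by
  classical
  have hn0 : (0 : ℝ) < n := by exact_mod_cast (by omega : 0 < n)
  obtain ⟨cL, C2, hcL, hmin⟩ := exists_minimal_fin I S
  set B0 : ℝ := max B 0 with hB0
  have hB0nn : 0 ≤ B0 := le_max_right _ _
  have hBB0 : B ≤ B0 := le_max_left _ _
  set δ1 : ℝ := δ / (2 * (n * n)) with hδ1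
  have hδ1pos : 0 < δ1 := by positivity
  have hB := fun (k : Fin n) (hk : 1 ≤ k.1) =>
    propB I S hk k.2 C2 δ1 B0 hδ1pos hB0nn
  choose Qk hQk Fk hFk hFk' using hB
  obtain ⟨Qs, hQs, hQs'⟩ := exists_ge_rpow (1 / cL + 1) (δ / 2) (by positivity)
  set Q0 : ℝ := Qs + ∑ k : Fin n, (if h : 1 ≤ k.1 then Qk k h else 0) with hQ0
  have hQ0nn : ∀ k : Fin n, 0 ≤ (if h : 1 ≤ k.1 then Qk k h else 0) := by
    intro k
    split_ifs with h
    · have := hQk k h
      linarith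
    · exact le_rfl
  have hQ0k : ∀ (k : Fin n) (h : 1 ≤ k.1), Qk k h ≤ Q0 := by
    intro k h
    have h1 := Finset.single_le_sum (f := fun k : Fin n => (if h : 1 ≤ k.1 then Qk k h else 0))
      (fun i _ => hQ0nn i) (Finset.mem_univ k)
    simp only [dif_pos h] at h1
    have : 0 ≤ Qs := by linarith
    linarith
  have hQ0s : Qs ≤ Q0 := by
    have := Finset.sum_nonneg fun (k : Fin n) (_ : k ∈ Finset.univ) => hQ0nn k
    linarith
  obtain ⟨F0, hF0, hF0'⟩ := finite_lines S hp 1 (Q0 ^ B0)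
  set 𝒲0 : Finset (Submodule ℚ (Fin n → ℚ)) := insert ⊥ (F0 ∪
    Finset.univ.biUnion fun k : Fin n => if h : 1 ≤ k.1 then Fk k h else ∅) with h𝒲0
  refine ⟨𝒲0.filter fun W => W ≠ ⊤, fun W hW => (Finset.mem_filter.1 hW).2, ?_⟩
  intro Q a a' hQ ha ha' hw x hx hN
  suffices h : ∃ W ∈ 𝒲0, x ∈ W ∧ W ≠ ⊤ by
    obtain ⟨W, hW, hxW, hne⟩ := h
    exact ⟨W, Finset.mem_filter.2 ⟨hW, hne⟩, hxW⟩
  have hfr : Module.finrank ℚ (Fin n → ℚ) = n := by simp
  by_cases hx0 : x = 0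
  · refine ⟨⊥, Finset.mem_insert_self _ _, by simp [hx0], ?_⟩
    intro h
    have h1 : Module.finrank ℚ (⊥ : Submodule ℚ (Fin n → ℚ)) = n := by
      rw [h, finrank_top, hfr]
    rw [finrank_bot] at h1
    omega
  have haP : ∀ i, PB Q B0 (a i) := fun i => PB.mono hQ hBB0 (ha i)
  have haP' : ∀ t i, PB Q B0 (a' t i) := fun t i => PB.mono hQ hBB0 (ha' t i)
  have hapos : ∀ i, 0 < a i := fun i => (haP i).pos hQ
  have hapos' : ∀ t i, 0 < a' t i := fun t i => (haP' t i).pos hQ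
  rcases le_or_gt Q0 Q with hQQ | hQQ
  · -- large `Q`
    have hQpos : 0 < Q := by linarith
    obtain ⟨X, hX, hXP, hXmin, hXmono, hXprod, hXlow⟩ := hmin a a' hapos hapos'
    set l : Fin n → ℝ := fun j => S.N a a' (X j) with hl
    have hlpos : ∀ j, 0 < l j := fun j => N_pos S a a' hapos hapos' (X j) (hX.ne_zero j)
    have hl0 : l ⟨0, by omega⟩ ≤ 1 := by
      refine (hXmin ⟨0, by omega⟩ x hx ?_).trans hN
      have : {i : Fin n | i < ⟨0, by omega⟩} = ∅ := by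
        ext i
        simp [Fin.lt_def]
      rw [this, Set.image_empty, Submodule.span_empty, Submodule.mem_bot]
      exact hx0
    have hθ1 : 1 ≤ Q ^ δ1 := Real.one_le_rpow hQ hδ1pos.le
    have hprod : (Q ^ δ1) ^ (n * n) < ∏ i, l i := by
      have e1 : (Q ^ δ1) ^ (n * n) = Q ^ (δ / 2) := by
        rw [← Real.rpow_natCast, ← Real.rpow_mul hQpos.le]
        congr 1
        rw [hδ1]
        push_cast
        field_simp
      have e2 : cL * Q ^ δ ≤ ∏ i, l i := by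
        have hpp : 0 ≤ ∏ i, l i := Finset.prod_nonneg fun i _ => (hlpos i).le
        have h1 : cL ≤ (∏ i, l i) * Q ^ (-δ) :=
          hXlow.trans (mul_le_mul_of_nonneg_left hw hpp)
        have h2 : 0 < Q ^ δ := Real.rpow_pos_of_pos hQpos _
        rw [Real.rpow_neg hQpos.le, ← div_eq_mul_inv, le_div_iff₀ h2] at h1
        exact h1
      have e3 := hQs' Q (hQ0s.trans hQQ)
      have e4 : Q ^ δ = Q ^ (δ / 2) * Q ^ (δ / 2) := by
        rw [← Real.rpow_add hQpos]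
        congr 1
        ring
      have e5 : 0 < Q ^ (δ / 2) := Real.rpow_pos_of_pos hQpos _
      rw [e1]
      refine lt_of_lt_of_le ?_ e2
      rw [e4]
      have e6 : 1 < cL * Q ^ (δ / 2) := by
        have : 1 / cL < Q ^ (δ / 2) := by linarith
        rwa [div_lt_iff₀ hcL, mul_comm] at this
      calc Q ^ (δ / 2) = 1 * Q ^ (δ / 2) := (one_mul _).symm
        _ < (cL * Q ^ (δ / 2)) * Q ^ (δ / 2) := mul_lt_mul_of_pos_right e6 e5
        _ = _ := by ring
    obtain ⟨k, hk, hkn, hk1, hkgap⟩ := exists_gap hn l hlpos hl0 (Q ^ δ1) hθ1 hprod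
    have hmem := hFk' ⟨k, hkn⟩ hk Q ((hQ0k _ _).trans hQQ) a a' haP haP' X hX hXP hXmono hXprod
      hkgap
    refine ⟨_, ?_, ?_, hFk _ _ _ hmem⟩
    · refine Finset.mem_insert_of_mem (Finset.mem_union_right _ (Finset.mem_biUnion.2
        ⟨⟨k, hkn⟩, Finset.mem_univ _, ?_⟩))
      rw [dif_pos hk]
      exact hmem
    · by_contra hnot
      have h1 := hXmin ⟨k, hkn⟩ x hx (by
        have : {i : Fin n | i < ⟨k, hkn⟩} = {i : Fin n | i.val < k} := by
          ext i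
          simp [Fin.lt_def]
        rw [this]
        exact hnot)
      have h2 : l ⟨k, hkn⟩ ≤ 1 := h1.trans hN
      linarith
  · -- small `Q`
    have h1 := hF0' a a' (fun i => ⟨hapos i, (haP i).2.trans
      (Real.rpow_le_rpow (by linarith) hQQ.le hB0nn)⟩)
      (fun t i => ⟨hapos' t i, (haP' t i).2.trans
      (Real.rpow_le_rpow (by linarith) hQQ.le hB0nn)⟩) x hx hx0 hN
    refine ⟨_, Finset.mem_insert_of_mem (Finset.mem_union_left _ h1),
      Submodule.mem_span_singleton_self _, ?_⟩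
    intro h
    have h2 : Module.finrank ℚ (Submodule.span ℚ {x}) = n := by
      rw [h, finrank_top, hfr]
    have h3 : Module.finrank ℚ (Submodule.span ℚ {x}) ≤ 1 := by
      have := finrank_span_le_card (R := ℚ) ({x} : Set (Fin n → ℚ))
      simpa using this
    omega

end Pool.Agent.Helper94.Sub
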