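import Pool.Agent.Helper94.Sub.Gap

/-!
# Subspace theorem project: the parametric subspace theorem, arbitrary index type
-/

set_option autoImplicit false
set_option linter.unusedSectionVars false

namespace Pool.Agent.Helper94.Sub

open Pool.Agent.Helper10.Sub

variable {ι κ : Type} [Fintype ι] [DecidableEq ι] [Fintype κ] [DecidableEq κ]
  {T : Type} [Fintype T] {p : T → ℕ} [∀ t, Fact (p t).Prime]

/-- Reindexing a system. -/
noncomputable def reindex (S : Sys ι T p) (e : ι ≃ κ) : Sys κ T p where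
  A := S.A.submatrix e.symm e.symm
  A' := fun t => (S.A' t).submatrix e.symm e.symm
  algA := fun _ _ => S.algA _ _
  algA' := fun t _ _ => S.algA' t _ _
  detA := by
    rw [Matrix.det_submatrix_equiv_self]
    exact S.detA
  detA' := fun t => by
    rw [Matrix.det_submatrix_equiv_self]
    exact S.detA' t

theorem norm_comp_symm (f : ι → ℝ) (e : ι ≃ κ) : ‖fun i => f (e.symm i)‖ = ‖f‖ := by
  apply le_antisymm
  · exact (pi_norm_le_iff_of_nonneg (norm_nonneg _)).2 fun i => norm_le_pi_norm f _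
  · refine (pi_norm_le_iff_of_nonneg (norm_nonneg _)).2 fun i => ?_
    have := norm_le_pi_norm (fun i => f (e.symm i)) (e i)
    simpa using this

theorem L_reindex (S : Sys ι T p) (e : ι ≃ κ) (x : ι → ℚ) (i : κ) :
    (reindex S e).L (fun i => x (e.symm i)) i = S.L x (e.symm i) := by
  unfold Sys.L reindex
  exact Fintype.sum_equiv e.symm _ _ fun _ => rfl

theorem L'_reindex (S : Sys ι T p) (e : ι ≃ κ) (t : T) (x : ι → ℚ) (i : κ) :
    (reindex S e).L' t (fun i => x (e.symm i)) i = S.L' t x (e.symm i) := by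
  unfold Sys.L' reindex
  exact Fintype.sum_equiv e.symm _ _ fun _ => rfl

theorem N_reindex (S : Sys ι T p) (e : ι ≃ κ) (a : ι → ℝ) (a' : T → ι → ℝ) (x : ι → ℚ) :
    (reindex S e).N (fun i => a (e.symm i)) (fun t i => a' t (e.symm i))
      (fun i => x (e.symm i)) = S.N a a' x := by
  unfold Sys.N Sys.Ninf Sys.Np
  simp only [L_reindex, L'_reindex]
  rw [norm_comp_symm (fun i => S.L x i / a i) e]
  congr 1
  exact Finset.prod_congr rfl fun t _ => norm_comp_symm (fun i => ‖S.L' t x i‖ / a' t i) e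

theorem wprod_reindex (e : ι ≃ κ) (a : ι → ℝ) (a' : T → ι → ℝ) :
    wprod (fun i => a (e.symm i)) (fun t i => a' t (e.symm i)) = wprod a a' := by
  unfold wprod
  rw [Equiv.prod_comp e.symm a]
  congr 1
  exact Finset.prod_congr rfl fun t _ => Equiv.prod_comp e.symm (a' t)

theorem subspace_of_inputs (I : Inputs T p) (hp : Function.Injective p)
    (hι : 2 ≤ Fintype.card ι) (S : Sys ι T p) (δ B : ℝ) (hδ : 0 < δ) :
    ∃ 𝒲 : Finset (Submodule ℚ (ι → ℚ)), (∀ W ∈ 𝒲, W ≠ ⊤) ∧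
    ∀ (Q : ℝ) (a : ι → ℝ) (a' : T → ι → ℝ), 1 ≤ Q →
      (∀ i, Q ^ (-B) ≤ a i ∧ a i ≤ Q ^ B) → (∀ t i, Q ^ (-B) ≤ a' t i ∧ a' t i ≤ Q ^ B) →
      wprod a a' ≤ Q ^ (-δ) → ∀ x : ι → ℚ, PVec (pprod p) x → S.N a a' x ≤ 1 →
      ∃ W ∈ 𝒲, x ∈ W := by
  classical
  set e : ι ≃ Fin (Fintype.card ι) := Fintype.equivFin ι with he
  obtain ⟨𝒲, h𝒲, h⟩ := subspace_fin I hp hι (reindex S e) δ B hδ
  set φ : (ι → ℚ) →ₗ[ℚ] (Fin (Fintype.card ι) → ℚ) := LinearMap.funLeft ℚ ℚ e.symm with hφ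
  have hφs : Function.Surjective φ := by
    intro y
    refine ⟨fun i => y (e i), ?_⟩
    funext j
    simp [hφ, LinearMap.funLeft_apply]
  refine ⟨𝒲.image fun W => W.comap φ, ?_, ?_⟩
  · intro W hW
    obtain ⟨W', hW', rfl⟩ := Finset.mem_image.1 hW
    intro htop
    apply h𝒲 W' hW'
    rw [eq_top_iff]
    intro y _
    obtain ⟨x, rfl⟩ := hφs y
    have : x ∈ W'.comap φ := by
      rw [htop]
      exact Submodule.mem_top
    exact this
  · intro Q a a' hQ ha ha' hw x hx hN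
    obtain ⟨W, hW, hxW⟩ := h Q (fun i => a (e.symm i)) (fun t i => a' t (e.symm i)) hQ
      (fun i => ha _) (fun t i => ha' t _) (by rw [wprod_reindex]; exact hw)
      (fun i => x (e.symm i)) (fun i => hx _) (by rw [N_reindex]; exact hN)
    exact ⟨W.comap φ, Finset.mem_image_of_mem _ hW, hxW⟩

end Pool.Agent.Helper94.Sub
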