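import Pool.Agent.Helper94.Sub.PB

/-!
# Subspace theorem project: the first minimum when there is a gap after it
-/

set_option autoImplicit false
set_option linter.unusedSectionVars false

namespace Pool.Agent.Helper94.Sub

open Pool.Agent.Helper10.Sub

/-- The scaling factors for Davenport's lemma. -/
theorem exists_rho {R : ℕ} (hR : 2 ≤ R) (μ : Fin R → ℝ) (hμ : ∀ j, 0 < μ j) (hm : Monotone μ)
    (w : ℝ) (hw : 0 < w) :
    ∃ (s : ℝ) (ρ : Fin R → ℝ), 0 < s ∧ (∀ j, 0 < ρ j) ∧ Antitone ρ ∧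
      (∀ i j, i ≤ j → ρ i * μ i ≤ ρ j * μ j) ∧ ∏ j, ρ j = w ∧
      ρ ⟨1, by omega⟩ * μ ⟨1, by omega⟩ = s ∧
      s ^ R * μ ⟨0, by omega⟩ = μ ⟨1, by omega⟩ * ((∏ j, μ j) * w) ∧
      ∀ Q E G : ℝ, 1 ≤ Q → (∀ j, PB Q E (μ j)) → PB Q G w →
        ∀ j, PB Q ((G + R * E) * (1 / R) + E) (ρ j) := by
  set z : Fin R := ⟨0, by omega⟩ with hz
  set o : Fin R := ⟨1, by omega⟩ with ho
  have hzo : z ≤ o := by
    rw [Fin.le_def]
    simp [hz, ho]
  have hRpos : 0 < R := by omega
  have hR0 : (R : ℝ) ≠ 0 := by exact_mod_cast hRpos.ne'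
  set ν : Fin R → ℝ := fun j => max (μ j) (μ o) with hν
  have hνpos : ∀ j, 0 < ν j := fun j => lt_max_of_lt_left (hμ j)
  have hν1 : ∀ j, z < j → ν j = μ j := by
    intro j hj
    refine max_eq_left (hm ?_)
    rw [Fin.le_def]
    rw [Fin.lt_def] at hj
    simp [hz, ho] at hj ⊢
    omega
  have hνz : ν z = μ o := max_eq_right (hm hzo)
  have hνmono : Monotone ν := fun i j hij => max_le_max (hm hij) le_rfl
  have hprod : (∏ j, ν j) * μ z = μ o * ∏ j, μ j := by
    rw [← Finset.mul_prod_erase Finset.univ ν (Finset.mem_univ z),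
      ← Finset.mul_prod_erase Finset.univ μ (Finset.mem_univ z), hνz]
    have : ∏ j ∈ Finset.univ.erase z, ν j = ∏ j ∈ Finset.univ.erase z, μ j := by
      refine Finset.prod_congr rfl fun j hj => hν1 j ?_
      have hjz : j ≠ z := Finset.ne_of_mem_erase hj
      rw [Fin.lt_def]
      have : j.val ≠ z.val := fun h => hjz (Fin.ext h)
      simp [hz] at this ⊢
      omega
    rw [this]
    ring
  have hνprod : 0 < ∏ j, ν j := Finset.prod_pos fun j _ => hνpos j
  set s : ℝ := (w * ∏ j, ν j) ^ (1 / (R : ℝ)) with hs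
  have hspos : 0 < s := Real.rpow_pos_of_pos (mul_pos hw hνprod) _
  have hsR : s ^ R = w * ∏ j, ν j := by
    rw [hs, ← Real.rpow_natCast, ← Real.rpow_mul (mul_pos hw hνprod).le,
      one_div_mul_cancel hR0, Real.rpow_one]
  refine ⟨s, fun j => s / ν j, hspos, fun j => div_pos hspos (hνpos j), ?_, ?_, ?_, ?_, ?_, ?_⟩
  · intro i j hij
    exact div_le_div_of_nonneg_left hspos.le (hνpos i) (hνmono hij)
  · intro i j hij
    have hle : s / ν i * μ i ≤ s := by
      rw [div_mul_eq_mul_div, div_le_iff₀ (hνpos i)]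
      exact mul_le_mul_of_nonneg_left (le_max_left _ _) hspos.le
    rcases eq_or_ne j z with h | h
    · have : i = z := by
        apply Fin.ext
        rw [h, Fin.le_def] at hij
        simp [hz] at hij ⊢
        exact hij
      rw [h, this]
    · have hj : z < j := by
        rw [Fin.lt_def]
        have : j.val ≠ z.val := fun h' => h (Fin.ext h')
        simp [hz] at this ⊢
        omega
      refine hle.trans (le_of_eq ?_)
      show s = s / ν j * μ j
      rw [hν1 j hj, div_mul_cancel₀ _ (hμ j).ne']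
  · rw [Finset.prod_div_distrib, Finset.prod_const, Finset.card_univ, Fintype.card_fin, hsR,
      mul_div_assoc, div_self hνprod.ne', mul_one]
  · show s / ν o * μ o = s
    have : ν o = μ o := max_self _
    rw [this, div_mul_cancel₀ _ (hμ o).ne']
  · rw [hsR, mul_assoc, hprod]
    ring
  · intro Q E G hQ hE hG j
    have h1 : ∀ j, PB Q E (ν j) := fun j => (hE j).max (hE o)
    have h2 := PB.prod hQ Finset.univ ν fun j _ => h1 j
    rw [Finset.card_univ, Fintype.card_fin] at h2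
    exact ((hG.mul hQ h2).rpow hQ (by positivity)).div hQ (h1 j)

variable {ι : Type} [Fintype ι] [DecidableEq ι] {T : Type} [Fintype T] {p : T → ℕ}
  [∀ t, Fact (p t).Prime]

/-- The dual vectors, as in task DUAL. -/
def DualProp (S : Sys ι T p) (C : ℝ) : Prop :=
  ∀ (a : ι → ℝ) (a' : T → ι → ℝ), (∀ i, 0 < a i) → (∀ t i, 0 < a' t i) →
    ∀ x : Fin (Fintype.card ι) → ι → ℚ, LinearIndependent ℚ x → (∀ j, PVec (pprod p) (x j)) →
    ∃ y : Fin (Fintype.card ι) → ι → ℚ, LinearIndependent ℚ y ∧ (∀ j, PVec (pprod p) (y j)) ∧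
      (∀ j l, j ≠ l → ∑ i, y j i * x l i = 0) ∧
      ∀ j, S.dual.N (fun i => (a i)⁻¹) (fun t i => (a' t i)⁻¹) (y j) * S.N a a' (x j) ≤
        C * (∏ l, S.N a a' (x l)) * wprod a a'

/-- Existence of minimal vectors and Minkowski's upper bound, as in task MINK2. -/
def Mink2Prop (S : Sys ι T p) (C : ℝ) : Prop :=
  ∀ (a : ι → ℝ) (a' : T → ι → ℝ), (∀ i, 0 < a i) → (∀ t i, 0 < a' t i) →
    ∃ x : Fin (Fintype.card ι) → ι → ℚ, LinearIndependent ℚ x ∧ (∀ j, PVec (pprod p) (x j)) ∧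
      MinProp S a a' x ∧ (∏ j, S.N a a' (x j)) * wprod a a' ≤ C

/-- Davenport's lemma with constant one, as in task DAV. -/
def DavProp (S : Sys ι T p) (C : ℝ) : Prop :=
  ∀ (a : ι → ℝ) (a' : T → ι → ℝ), (∀ i, 0 < a i) → (∀ t i, 0 < a' t i) →
    ∀ x : Fin (Fintype.card ι) → ι → ℚ, LinearIndependent ℚ x → MinProp S a a' x →
    ∀ ρ : Fin (Fintype.card ι) → ℝ, (∀ j, 0 < ρ j) → Antitone ρ →
      (∀ i j, i ≤ j → ρ i * S.N a a' (x i) ≤ ρ j * S.N a a' (x j)) →
    ∃ π : ι ≃ Fin (Fintype.card ι), ∀ j y, PVec (pprod p) y →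
      y ∉ Submodule.span ℚ (x '' {i | i < j}) →
      ρ j * S.N a a' (x j) ≤ C * S.N (fun i => a i / ρ (π i)) a' y

/-- The penultimate minimum theorem, as in task PENULT. -/
def PenultProp (S : Sys ι T p) : Prop :=
  ∀ δ B : ℝ, 0 < δ →
    {m : ι → ℤ | Prim m ∧ ∃ Q : ℝ, 1 ≤ Q ∧ ∃ (a : ι → ℝ) (a' : T → ι → ℝ),
      (∀ i, Q ^ (-B) ≤ a i ∧ a i ≤ Q ^ B) ∧ (∀ t i, Q ^ (-B) ≤ a' t i ∧ a' t i ≤ Q ^ B) ∧
      wprod a a' ≤ 1 ∧ ∃ y : Fin (Fintype.card ι - 1) → ι → ℚ, LinearIndependent ℚ y ∧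
        (∀ j, PVec (pprod p) (y j)) ∧ (∀ j, ∑ i, (m i : ℚ) * y j i = 0) ∧
        (∀ j, S.N a a' (y j) ≤ Q ^ (-δ))}.Finite

theorem wprod_div (a : ι → ℝ) (a' : T → ι → ℝ) (r : ι → ℝ) :
    wprod (fun i => a i / r i) a' = wprod a a' / ∏ i, r i := by
  unfold wprod
  rw [Finset.prod_div_distrib]
  ring

theorem wprod_inv (a : ι → ℝ) (a' : T → ι → ℝ) :
    wprod (fun i => (a i)⁻¹) (fun t i => (a' t i)⁻¹) = (wprod a a')⁻¹ := by
  unfold wprod
  simp only [Finset.prod_inv_distrib, mul_inv]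

theorem propA (S : Sys ι T p) (cL C2 C3 CD : ℝ) (hcL : 0 < cL) (hC2 : 0 < C2) (hC3 : 0 < C3)
    (hCD : 0 < CD) (hlow : LowerProp S cL) (hmink : Mink2Prop S C2) (hdual : DualProp S C3)
    (hdav : DavProp S CD) (hpen : PenultProp S.dual) (hι : 2 ≤ Fintype.card ι) (δ B : ℝ)
    (hδ : 0 < δ) (hB : 0 ≤ B) :
    ∃ Q0 : ℝ, 2 ≤ Q0 ∧ ∃ F : Finset (Submodule ℚ (ι → ℚ)), ∀ Q : ℝ, Q0 ≤ Q →
      ∀ (a : ι → ℝ) (a' : T → ι → ℝ), (∀ i, PB Q B (a i)) → (∀ t i, PB Q B (a' t i)) →
      ∀ X : Fin (Fintype.card ι) → ι → ℚ, LinearIndependent ℚ X →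
      (∀ j, PVec (pprod p) (X j)) → MinProp S a a' X →
      Q ^ δ * S.N a a' (X ⟨0, by omega⟩) ≤ S.N a a' (X ⟨1, by omega⟩) →
      Submodule.span ℚ {X ⟨0, by omega⟩} ∈ F := by
  classical
  set R := Fintype.card ι with hR
  have hRpos : 0 < R := by omega
  have hR0 : (R : ℝ) ≠ 0 := by exact_mod_cast hRpos.ne'
  have hR0' : (0 : ℝ) < R := by exact_mod_cast hRpos
  set z : Fin R := ⟨0, by omega⟩ with hz
  set o : Fin R := ⟨1, by omega⟩ with ho
  have hzo : z < o := by
    rw [Fin.lt_def]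
    simp [hz, ho]
  obtain ⟨E, hE0, hE⟩ := minima_PB S cL hcL hlow B hB
  set G : ℝ := (R : ℝ) * B + (Fintype.card T : ℝ) * ((R : ℝ) * B) with hG
  have hG0 : 0 ≤ G := by positivity
  set B' : ℝ := B + ((G + R * E) * (1 / R) + E) with hB'
  have hBB' : B ≤ B' := by
    have : 0 ≤ (G + R * E) * (1 / R) + E := by positivity
    linarith
  set δ' : ℝ := δ / (2 * R) with hδ'
  have hδ'pos : 0 < δ' := by positivity
  have hfin := hpen δ' B' hδ'pos
  obtain ⟨Q1, hQ1, hQ1'⟩ := exists_ge_rpow (C2 * CD ^ R / cL + 1) δ hδ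
  obtain ⟨Q2, hQ2, hQ2'⟩ := exists_ge_rpow (C3 * C2 * CD / cL ^ (1 / (R : ℝ))) δ' hδ'pos
  refine ⟨max Q1 Q2, le_max_of_le_left hQ1,
    hfin.toFinset.image fun m => Submodule.span ℚ {fun i => (m i : ℚ)}, ?_⟩
  intro Q hQ a a' ha ha' X hX hXP hmin hgap
  have hQ2le : (2 : ℝ) ≤ Q := hQ1.trans ((le_max_left _ _).trans hQ)
  have hQge1 : (1 : ℝ) ≤ Q := by linarith
  have hQ0 : (0 : ℝ) < Q := by linarith
  have hapos : ∀ i, 0 < a i := fun i => (ha i).pos hQge1
  have hapos' : ∀ t i, 0 < a' t i := fun t i => (ha' t i).pos hQge1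
  set μ : Fin R → ℝ := fun j => S.N a a' (X j) with hμdef
  have hμpos : ∀ j, 0 < μ j := fun j => N_pos S a a' hapos hapos' (X j) (hX.ne_zero j)
  have hμmono : Monotone μ := hmin.mono hX hXP
  have hw : 0 < wprod a a' := wprod_pos hapos hapos'
  obtain ⟨s, ρ, hs, hρ, hρanti, hρmono, hρprod, hρo, hsR, hρPB⟩ :=
    exists_rho hι μ hμpos hμmono (wprod a a') hw
  obtain ⟨π, hπ⟩ := hdav a a' hapos hapos' X hX hmin ρ hρ hρanti hρmono
  set β : ι → ℝ := fun i => a i / ρ (π i) with hβ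
  have hβpos : ∀ i, 0 < β i := fun i => div_pos (hapos i) (hρ _)
  have hβw : wprod β a' = 1 := by
    rw [hβ, wprod_div]
    have : ∏ i, ρ (π i) = ∏ j, ρ j := Equiv.prod_comp π ρ
    rw [this, hρprod, div_self hw.ne']
  -- lower bound for `s`
  have hsR' : cL * Q ^ δ ≤ s ^ R := by
    have h1 := hlow.fin a a' hapos hapos' X hX hXP
    have h2 : s ^ R * μ z ≥ (cL * Q ^ δ) * μ z := by
      rw [hsR]
      calc cL * Q ^ δ * μ z = cL * (Q ^ δ * μ z) := by ring
        _ ≤ cL * μ o := mul_le_mul_of_nonneg_left hgap hcL.le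
        _ = μ o * cL := mul_comm _ _
        _ ≤ μ o * ((∏ j, μ j) * wprod a a') := mul_le_mul_of_nonneg_left h1 (hμpos o).le
    exact le_of_mul_le_mul_right h2 (hμpos z)
  obtain ⟨X', hX', hXP', hmin', hprod'⟩ := hmink β a' hβpos hapos'
  rw [hβw, mul_one] at hprod'
  set μ' : Fin R → ℝ := fun j => S.N β a' (X' j) with hμ'def
  have hμ'pos : ∀ j, 0 < μ' j := fun j => N_pos S β a' hβpos hapos' (X' j) (hX'.ne_zero j)
  have hμ'mono : Monotone μ' := hmin'.mono hX' hXP'
  have hspan : X '' {i | i < o} = {X z} := by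
    have : {i : Fin R | i < o} = {z} := by
      ext i
      simp only [Set.mem_setOf_eq, Set.mem_singleton_iff, Fin.lt_def, Fin.ext_iff, hz, ho]
      omega
    rw [this, Set.image_singleton]
  have hkey : ∀ y, PVec (pprod p) y → y ∉ Submodule.span ℚ {X z} → s / CD ≤ S.N β a' y := by
    intro y hy hyn
    have h1 := hπ o y hy (by rw [hspan]; exact hyn)
    rw [div_le_iff₀ hCD, mul_comm]
    calc s = ρ o * μ o := hρo.symm
      _ ≤ _ := h1
  -- `X' z` lies on the line of `X z`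
  have hmem : X' z ∈ Submodule.span ℚ {X z} := by
    by_contra hnot
    have h1 := hkey _ (hXP' z) hnot
    have h2 : ∀ j, s / CD ≤ μ' j := fun j => h1.trans (hμ'mono (by
      rw [Fin.le_def]
      simp [hz]))
    have h3 : (s / CD) ^ R ≤ ∏ j, μ' j := by
      have : (s / CD) ^ R = ∏ _j : Fin R, (s / CD) := by
        rw [Finset.prod_const, Finset.card_univ, Fintype.card_fin]
      rw [this]
      exact Finset.prod_le_prod (fun _ _ => (div_pos hs hCD).le) fun j _ => h2 j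
    have h4 : cL * Q ^ δ / CD ^ R ≤ C2 := by
      refine le_trans ?_ (h3.trans hprod')
      rw [div_pow]
      exact div_le_div_of_nonneg_right hsR' (by positivity)
    have h5 := hQ1' Q ((le_max_left _ _).trans hQ)
    rw [div_le_iff₀ (by positivity)] at h4
    have h6 : Q ^ δ ≤ C2 * CD ^ R / cL := by
      rw [le_div_iff₀ hcL, mul_comm]
      exact h4
    linarith
  have hspan' : Submodule.span ℚ {X' z} = Submodule.span ℚ {X z} := by
    obtain ⟨c, hc⟩ := Submodule.mem_span_singleton.1 hmem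
    have hc0 : c ≠ 0 := by
      rintro rfl
      exact hX'.ne_zero z (by rw [← hc, zero_smul])
    rw [← hc]
    exact Submodule.span_singleton_smul_eq (IsUnit.mk0 c hc0) _
  have hX'o : X' o ∉ Submodule.span ℚ {X z} := by
    rw [← hspan']
    have h1 := hX'.notMem_span_image (s := {z}) (x := o) (by
      rw [Set.mem_singleton_iff]
      exact hzo.ne')
    rwa [Set.image_singleton] at h1
  have hμ'ge : ∀ j, z < j → s / CD ≤ μ' j := by
    intro j hj
    refine (hkey _ (hXP' o) hX'o).trans (hμ'mono ?_)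
    rw [Fin.le_def]
    rw [Fin.lt_def] at hj
    simp [hz, ho] at hj ⊢
    omega
  obtain ⟨y, hy, hyP, hyo, hyN⟩ := hdual β a' hβpos hapos' X' hX' hXP'
  obtain ⟨m, c, hm, hc, hc0, hmc⟩ := exists_prim (p := p) (X' z) (hXP' z) (hX'.ne_zero z)
  have hmem_m : m ∈ hfin.toFinset := by
    rw [Set.Finite.mem_toFinset]
    refine ⟨hm, Q, hQge1, fun i => (β i)⁻¹, fun t i => (a' t i)⁻¹, ?_, ?_, ?_, ?_⟩
    · intro i
      have h1 : ∀ j, PB Q E (μ j) := fun j => hE Q hQ2le a a' ha ha' X hX hXP hmin j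
      have h2 : PB Q G (wprod a a') := PB.wprod hQge1 ha ha'
      have h3 := hρPB Q E G hQge1 h1 h2 (π i)
      exact ((ha i).div hQge1 h3).inv hQge1
    · intro t i
      exact ((ha' t i).mono hQge1 hBB').inv hQge1
    · rw [wprod_inv, hβw, inv_one]
    · refine ⟨fun j => y ⟨j.1 + 1, by omega⟩, ?_, ?_, ?_, ?_⟩
      · refine hy.comp (fun j : Fin (R - 1) => (⟨j.1 + 1, by omega⟩ : Fin R)) ?_
        intro i j hij
        apply Fin.ext
        have := congrArg Fin.val hij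
        simpa using this
      · intro j
        exact hyP _
      · intro j
        have h1 := hyo ⟨j.1 + 1, by omega⟩ z (by
          intro h
          have := congrArg Fin.val h
          simp [hz] at this)
        rw [hmc] at h1
        have h2 : c * ∑ i, (m i : ℚ) * y ⟨j.1 + 1, by omega⟩ i = 0 := by
          rw [← h1, Finset.mul_sum]
          refine Finset.sum_congr rfl fun i _ => ?_
          simp only [Pi.smul_apply, smul_eq_mul]
          ring
        exact (mul_eq_zero.1 h2).resolve_left hc0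
      · intro j
        set j' : Fin R := ⟨j.1 + 1, by omega⟩ with hj'
        have hzj' : z < j' := by
          rw [Fin.lt_def]
          simp [hz, hj']
        have h1 := hyN j'
        rw [hβw, mul_one] at h1
        have h2 : S.dual.N (fun i => (β i)⁻¹) (fun t i => (a' t i)⁻¹) (y j') * (s / CD) ≤
            C3 * C2 := by
          calc S.dual.N (fun i => (β i)⁻¹) (fun t i => (a' t i)⁻¹) (y j') * (s / CD) ≤
              S.dual.N (fun i => (β i)⁻¹) (fun t i => (a' t i)⁻¹) (y j') * μ' j' :=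
                mul_le_mul_of_nonneg_left (hμ'ge j' hzj') (N_nonneg _ _ _ _)
            _ ≤ C3 * ∏ l, μ' l := h1
            _ ≤ C3 * C2 := mul_le_mul_of_nonneg_left hprod' hC3.le
        have h3 : cL ^ (1 / (R : ℝ)) * Q ^ (δ / R) ≤ s := by
          have e1 : (cL * Q ^ δ) ^ (1 / (R : ℝ)) ≤ (s ^ R) ^ (1 / (R : ℝ)) :=
            Real.rpow_le_rpow (by positivity) hsR' (by positivity)
          have e2 : (s ^ R) ^ (1 / (R : ℝ)) = s := by
            rw [← Real.rpow_natCast, ← Real.rpow_mul hs.le, mul_one_div_cancel hR0, Real.rpow_one]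
          have e3 : (cL * Q ^ δ) ^ (1 / (R : ℝ)) = cL ^ (1 / (R : ℝ)) * Q ^ (δ / R) := by
            rw [Real.mul_rpow hcL.le (by positivity), ← Real.rpow_mul hQ0.le, mul_one_div]
          rwa [e2, e3] at e1
        have h4 := hQ2' Q ((le_max_right _ _).trans hQ)
        have hcLR : 0 < cL ^ (1 / (R : ℝ)) := Real.rpow_pos_of_pos hcL _
        rw [div_le_iff₀ hcLR] at h4
        have h5 : Q ^ (δ / R) = Q ^ δ' * Q ^ δ' := by
          rw [← Real.rpow_add hQ0]
          congr 1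
          rw [hδ']
          field_simp
          ring
        have hQδ' : 0 < Q ^ δ' := Real.rpow_pos_of_pos hQ0 _
        have h6 : C3 * C2 * CD * Q ^ δ' ≤ s := by
          refine le_trans ?_ h3
          rw [h5]
          nlinarith
        rw [Real.rpow_neg hQ0.le]
        rw [mul_div_assoc', div_le_iff₀ hCD] at h2
        set D := S.dual.N (fun i => (β i)⁻¹) (fun t i => (a' t i)⁻¹) (y j') with hD
        have h7 : D * (C3 * C2 * CD * Q ^ δ') ≤ C3 * C2 * CD := by
          refine (mul_le_mul_of_nonneg_left h6 (N_nonneg _ _ _ _)).trans h2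
        rw [← one_div, le_div_iff₀ hQδ']
        have hC : 0 < C3 * C2 * CD := by positivity
        have h8 : D * Q ^ δ' * (C3 * C2 * CD) ≤ 1 * (C3 * C2 * CD) := by
          rw [one_mul]
          calc _ = D * (C3 * C2 * CD * Q ^ δ') := by ring
            _ ≤ _ := h7
        exact le_of_mul_le_mul_right h8 hC
  refine Finset.mem_image.2 ⟨m, hmem_m, ?_⟩
  rw [← hspan', hmc]
  exact (Submodule.span_singleton_smul_eq (IsUnit.mk0 c hc0) _).symm

end Pool.Agent.Helper94.Sub
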