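import Pool.Agent.Helper94.Sub.PropA
import Pool.Agent.Helper1.SubCOMP

/-!
# Subspace theorem project: the span of the first `k` minimal vectors when there is a gap after it
-/

set_option autoImplicit false
set_option linter.unusedSectionVars false

namespace Pool.Agent.Helper94.Sub

open Pool.Agent.Helper10.Sub Pool.Agent.Helper1.Sub

section replace

variable {ι : Type} [Fintype ι] [DecidableEq ι] {T : Type} [Fintype T] {p : T → ℕ}
  [∀ t, Fact (p t).Prime]

theorem exists_replace (w : ι → ι → ℚ) (hw : LinearIndependent ℚ w) (y : ι → ℚ) (J0 : ι)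
    (hy : y ∉ Submodule.span ℚ {w J0}) :
    ∃ J1, J1 ≠ J0 ∧ LinearIndependent ℚ (Function.update w J1 y) := by
  classical
  set W : Matrix ι ι ℚ := Matrix.of w with hW
  have hu : IsUnit W := by
    rw [← Matrix.linearIndependent_rows_iff_isUnit]
    exact hw
  have hdet : W.det ≠ 0 := by
    rw [Matrix.isUnit_iff_isUnit_det] at hu
    exact hu.ne_zero
  -- coordinates of `y`
  set c : ι → ℚ := fun J => (Matrix.vecMul y W⁻¹) J with hc
  have hyc : y = ∑ J, c J • w J := by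
    have h1 : Matrix.vecMul (Matrix.vecMul y W⁻¹) W = y := by
      rw [Matrix.vecMul_vecMul, Matrix.nonsing_inv_mul _ (by
        rw [← Matrix.isUnit_iff_isUnit_det]; exact hu), Matrix.vecMul_one]
    funext i
    have h2 := congrFun h1 i
    rw [← h2]
    simp only [Matrix.vecMul, dotProduct, Finset.sum_apply, Pi.smul_apply, smul_eq_mul, hc, hW,
      Matrix.of_apply]
  obtain ⟨J1, hJ1, hc1⟩ : ∃ J1, J1 ≠ J0 ∧ c J1 ≠ 0 := by
    by_contra h
    push Not at h
    apply hy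
    rw [hyc, Finset.sum_eq_single J0]
    · exact Submodule.smul_mem _ _ (Submodule.mem_span_singleton_self _)
    · intro b _ hb
      rw [h b hb, zero_smul]
    · simp
  refine ⟨J1, hJ1, ?_⟩
  have h1 : (W.updateRow J1 (∑ k, c k • W k)).det = c J1 • W.det := Matrix.det_updateRow_sum W J1 c
  have h2 : (∑ k, c k • W k) = y := hyc.symm
  rw [h2] at h1
  have h3 : (W.updateRow J1 y).det ≠ 0 := by
    rw [h1]
    exact smul_ne_zero hc1 hdet
  have h4 : LinearIndependent ℚ (W.updateRow J1 y).row := by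
    rw [Matrix.linearIndependent_rows_iff_isUnit, Matrix.isUnit_iff_isUnit_det]
    exact isUnit_iff_ne_zero.2 h3
  have h5 : (W.updateRow J1 y).row = Function.update w J1 y := by
    funext i
    by_cases hi : i = J1
    · subst hi
      rw [Function.update_self]
      funext j
      simp [Matrix.row]
    · rw [Function.update_of_ne hi]
      funext j
      simp [Matrix.row, Matrix.updateRow_ne hi, hW]
  rwa [h5] at h4

/-- Lower bound for vectors outside a coordinate line of a basis. -/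
theorem lower_replace (S : Sys ι T p) (cL : ℝ) (hcL : 0 < cL) (hlow : LowerProp S cL)
    (a : ι → ℝ) (a' : T → ι → ℝ) (ha : ∀ i, 0 < a i) (ha' : ∀ t i, 0 < a' t i)
    (w : ι → ι → ℚ) (hw : LinearIndependent ℚ w) (hwP : ∀ J, PVec (pprod p) (w J))
    (Λ : ι → ℝ) (hΛ : ∀ J, 0 < Λ J) (CN : ℝ) (hCN : 1 ≤ CN)
    (hwN : ∀ J, S.N a a' (w J) ≤ CN * Λ J) (K : ℝ) (hK : (∏ J, Λ J) * wprod a a' ≤ K)
    (y : ι → ℚ) (hyP : PVec (pprod p) y) (J0 : ι) (hy : y ∉ Submodule.span ℚ {w J0})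
    (m : ℝ) (hm : ∀ J, J ≠ J0 → m ≤ Λ J) :
    m ≤ CN ^ Fintype.card ι * K / cL * S.N a a' y := by
  classical
  obtain ⟨J1, hJ1, hli⟩ := exists_replace w hw y J0 hy
  have h1 := hlow a a' ha ha' _ hli (by
    intro J
    by_cases h : J = J1
    · subst h
      rwa [Function.update_self]
    · rw [Function.update_of_ne h]
      exact hwP J)
  have hN : 0 ≤ S.N a a' y := N_nonneg _ _ _ _
  have hwp : 0 < wprod a a' := wprod_pos ha ha'
  have h2 : ∏ J, S.N a a' (Function.update w J1 y J) =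
      S.N a a' y * ∏ J ∈ Finset.univ.erase J1, S.N a a' (w J) := by
    rw [← Finset.mul_prod_erase Finset.univ _ (Finset.mem_univ J1), Function.update_self]
    congr 1
    refine Finset.prod_congr rfl fun J hJ => ?_
    rw [Function.update_of_ne (Finset.ne_of_mem_erase hJ)]
  have h3 : ∏ J ∈ Finset.univ.erase J1, S.N a a' (w J) ≤
      ∏ J ∈ Finset.univ.erase J1, (CN * Λ J) :=
    Finset.prod_le_prod (fun _ _ => N_nonneg _ _ _ _) fun J _ => hwN J
  have h4 : cL ≤ S.N a a' y * (∏ J ∈ Finset.univ.erase J1, (CN * Λ J)) * wprod a a' := by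
    rw [h2] at h1
    refine h1.trans (mul_le_mul_of_nonneg_right ?_ hwp.le)
    exact mul_le_mul_of_nonneg_left h3 hN
  have h5 : cL * Λ J1 ≤ S.N a a' y * (CN ^ Fintype.card ι * K) := by
    have hCN0 : 0 < CN := by linarith
    calc cL * Λ J1 ≤ cL * (CN * Λ J1) := by
          refine mul_le_mul_of_nonneg_left ?_ hcL.le
          exact le_mul_of_one_le_left (hΛ J1).le hCN
      _ ≤ (S.N a a' y * (∏ J ∈ Finset.univ.erase J1, (CN * Λ J)) * wprod a a') * (CN * Λ J1) :=
          mul_le_mul_of_nonneg_right h4 (mul_pos hCN0 (hΛ J1)).le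
      _ = S.N a a' y * ((CN * Λ J1) * (∏ J ∈ Finset.univ.erase J1, (CN * Λ J))) * wprod a a' := by
          ring
      _ = S.N a a' y * (∏ J, (CN * Λ J)) * wprod a a' := by
          rw [Finset.mul_prod_erase Finset.univ (fun J => CN * Λ J) (Finset.mem_univ J1)]
      _ = S.N a a' y * (CN ^ Fintype.card ι * ((∏ J, Λ J) * wprod a a')) := by
          rw [Finset.prod_mul_distrib, Finset.prod_const, Finset.card_univ]
          ring
      _ ≤ _ := by
          refine mul_le_mul_of_nonneg_left ?_ hN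
          exact mul_le_mul_of_nonneg_left hK (by positivity)
  have h6 := hm J1 hJ1
  rw [div_mul_eq_mul_div, le_div_iff₀ hcL]
  calc m * cL ≤ Λ J1 * cL := mul_le_mul_of_nonneg_right h6 hcL.le
    _ = cL * Λ J1 := mul_comm _ _
    _ ≤ _ := h5
    _ = _ := mul_comm _ _

end replace

/-- Comparison of the products over `k`-subsets. -/
theorem gap_prod {n k : ℕ} (l : Fin n → ℝ) (hl : ∀ i, 0 < l i) (J J0 : Finset (Fin n))
    (hJ0 : ∀ i, i ∈ J0 ↔ i.val < k) (hcard : J.card = J0.card) (hne : J ≠ J0) (L θ : ℝ)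
    (hL : 0 < L) (hθ : 1 ≤ θ) (h1 : ∀ i : Fin n, i.val < k → l i ≤ L)
    (h2 : ∀ i : Fin n, k ≤ i.val → θ * L ≤ l i) :
    θ * ∏ i ∈ J0, l i ≤ ∏ i ∈ J, l i := by
  classical
  set d := (J \ J0).card with hd
  have hd' : (J0 \ J).card = d := (Finset.card_sdiff_comm hcard).symm
  have hd1 : 1 ≤ d := by
    rw [hd, Nat.one_le_iff_ne_zero, Finset.card_ne_zero, Finset.sdiff_nonempty]
    intro hsub
    exact hne (Finset.eq_of_subset_of_card_le hsub hcard.ge)
  have e1 : ∏ i ∈ J0 \ J, l i ≤ L ^ d := by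
    rw [← hd', ← Finset.prod_const]
    refine Finset.prod_le_prod (fun i _ => (hl i).le) fun i hi => h1 i ?_
    exact (hJ0 i).1 (Finset.mem_sdiff.1 hi).1
  have e2 : (θ * L) ^ d ≤ ∏ i ∈ J \ J0, l i := by
    rw [hd, ← Finset.prod_const]
    refine Finset.prod_le_prod (fun i _ => by positivity) fun i hi => h2 i ?_
    by_contra h
    exact (Finset.mem_sdiff.1 hi).2 ((hJ0 i).2 (by omega))
  have e3 : θ * L ^ d ≤ (θ * L) ^ d := by
    rw [mul_pow]
    refine mul_le_mul_of_nonneg_right ?_ (by positivity)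
    exact le_self_pow₀ hθ (by omega)
  rw [← Finset.prod_inter_mul_prod_sdiff J0 J l, ← Finset.prod_inter_mul_prod_sdiff J J0 l,
    Finset.inter_comm J0 J]
  have hI : 0 ≤ ∏ i ∈ J ∩ J0, l i := Finset.prod_nonneg fun i _ => (hl i).le
  calc θ * ((∏ i ∈ J ∩ J0, l i) * ∏ i ∈ J0 \ J, l i) ≤
      θ * ((∏ i ∈ J ∩ J0, l i) * L ^ d) :=
        mul_le_mul_of_nonneg_left (mul_le_mul_of_nonneg_left e1 hI) (by linarith)
    _ = (∏ i ∈ J ∩ J0, l i) * (θ * L ^ d) := by ring
    _ ≤ _ := mul_le_mul_of_nonneg_left (e3.trans e2) hI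

/-- All the inputs. -/
structure Inputs (T : Type) [Fintype T] (p : T → ℕ) [∀ t, Fact (p t).Prime] : Prop where
  low : ∀ (ι : Type) [Fintype ι] [DecidableEq ι] (S : Sys ι T p), ∃ c : ℝ, 0 < c ∧ LowerProp S c
  mink : ∀ (ι : Type) [Fintype ι] [DecidableEq ι] (S : Sys ι T p), ∃ C : ℝ, 0 < C ∧ Mink2Prop S C
  dav : ∀ (ι : Type) [Fintype ι] [DecidableEq ι] (S : Sys ι T p), ∃ C : ℝ, 0 < C ∧ DavProp S C
  dual : ∀ (ι : Type) [Fintype ι] [DecidableEq ι] (S : Sys ι T p), 1 ≤ Fintype.card ι →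
    ∃ C : ℝ, 0 < C ∧ DualProp S C
  pen : ∀ (ι : Type) [Fintype ι] [DecidableEq ι] (S : Sys ι T p), 2 ≤ Fintype.card ι →
    PenultProp S

variable {T : Type} [Fintype T] {p : T → ℕ} [∀ t, Fact (p t).Prime]

theorem propB (I : Inputs T p) {n k : ℕ} (S : Sys (Fin n) T p) (hk : 1 ≤ k) (hkn : k < n)
    (C2 δ B : ℝ) (hδ : 0 < δ) (hB : 0 ≤ B) :
    ∃ Q0 : ℝ, 2 ≤ Q0 ∧ ∃ F : Finset (Submodule ℚ (Fin n → ℚ)), (∀ W ∈ F, W ≠ ⊤) ∧
      ∀ Q : ℝ, Q0 ≤ Q → ∀ (a : Fin n → ℝ) (a' : T → Fin n → ℝ), (∀ i, PB Q B (a i)) →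
      (∀ t i, PB Q B (a' t i)) → ∀ x : Fin n → Fin n → ℚ, LinearIndependent ℚ x →
      (∀ j, PVec (pprod p) (x j)) → Monotone (fun j => S.N a a' (x j)) →
      (∏ j, S.N a a' (x j)) * wprod a a' ≤ C2 →
      Q ^ δ * S.N a a' (x ⟨k - 1, by omega⟩) ≤ S.N a a' (x ⟨k, hkn⟩) →
      Submodule.span ℚ (x '' {i | i.val < k}) ∈ F := by
  classical
  set κ := Ik (Fin n) k with hκ
  set Sc : Sys κ T p := comp S k with hSc
  have hcardκ : Fintype.card κ = n.choose k := card_Ik
  have hR : 2 ≤ Fintype.card κ := by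
    rw [hcardκ]
    have h1 : (k + 1).choose k ≤ n.choose k := Nat.choose_le_choose k hkn
    rw [Nat.choose_succ_self_right] at h1
    omega
  obtain ⟨cL, hcL, hlow⟩ := I.low κ Sc
  obtain ⟨C2c, hC2c, hmink⟩ := I.mink κ Sc
  obtain ⟨CD, hCD, hdav⟩ := I.dav κ Sc
  obtain ⟨C3, hC3, hdual⟩ := I.dual κ Sc (by omega)
  have hpen := I.pen κ Sc.dual hR
  obtain ⟨Q1, hQ1, FA, hFA⟩ := propA Sc cL C2c C3 CD hcL hC2c hC3 hCD hlow hmink hdual hdav hpen hR
    (δ / 2) (k * B) (by positivity) (by positivity)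
  obtain ⟨CN0, hCN0, hNw0⟩ := N_wedge S k
  set CN : ℝ := CN0 + 1 with hCNdef
  have hCN1 : 1 ≤ CN := by linarith
  have hCNpos : 0 < CN := by linarith
  set e : ℕ := (n - 1).choose (k - 1) with he
  set K : ℝ := |C2| ^ e with hK
  set K1 : ℝ := CN ^ Fintype.card κ * K / cL with hK1
  have hK1nn : 0 ≤ K1 := by positivity
  obtain ⟨Q2, hQ2, hQ2'⟩ := exists_ge_rpow (K1 * CN + 1) (δ / 2) (by positivity)
  -- back from lines to subspaces
  let g : Submodule ℚ (κ → ℚ) → Submodule ℚ (Fin n → ℚ) := fun ℓ =>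
    if h : ∃ x : Fin k → Fin n → ℚ, LinearIndependent ℚ x ∧
      Submodule.span ℚ {(wedge x : κ → ℚ)} = ℓ then Submodule.span ℚ (Set.range h.choose) else ⊥
  have hg : ∀ x : Fin k → Fin n → ℚ, LinearIndependent ℚ x →
      g (Submodule.span ℚ {(wedge x : κ → ℚ)}) = Submodule.span ℚ (Set.range x) := by
    intro x hx
    have hex : ∃ x' : Fin k → Fin n → ℚ, LinearIndependent ℚ x' ∧
      Submodule.span ℚ {(wedge x' : κ → ℚ)} = Submodule.span ℚ {(wedge x : κ → ℚ)} := ⟨x, hx, rfl⟩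
    simp only [g, dif_pos hex]
    obtain ⟨h1, h2⟩ := hex.choose_spec
    have h3 : (wedge x : κ → ℚ) ∈ Submodule.span ℚ {(wedge hex.choose : κ → ℚ)} := by
      rw [h2]
      exact Submodule.mem_span_singleton_self _
    obtain ⟨c, hc⟩ := Submodule.mem_span_singleton.1 h3
    exact (span_eq_of_wedge x hex.choose hx h1 c hc.symm).symm
  refine ⟨max Q1 Q2, le_max_of_le_left hQ1, (FA.image g).filter fun W => W ≠ ⊤, ?_, ?_⟩
  · intro W hW
    exact (Finset.mem_filter.1 hW).2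
  intro Q hQ a a' ha ha' x hx hxP hmono hC2 hgap
  have hQ1le : Q1 ≤ Q := (le_max_left _ _).trans hQ
  have hQ2le : Q2 ≤ Q := (le_max_right _ _).trans hQ
  have hQge1 : (1 : ℝ) ≤ Q := by linarith
  have hQ0 : (0 : ℝ) < Q := by linarith
  have hapos : ∀ i, 0 < a i := fun i => (ha i).pos hQge1
  have hapos' : ∀ t i, 0 < a' t i := fun t i => (ha' t i).pos hQge1
  set l : Fin n → ℝ := fun j => S.N a a' (x j) with hl
  have hlpos : ∀ j, 0 < l j := fun j => N_pos S a a' hapos hapos' (x j) (hx.ne_zero j)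
  set A : κ → ℝ := cw a with hA
  set A' : T → κ → ℝ := fun t => cw (a' t) with hA'
  have hcwPB : ∀ b : Fin n → ℝ, (∀ i, PB Q B (b i)) → ∀ s : κ, PB Q (k * B) (cw b s) := by
    intro b hb s
    have h1 := PB.prod hQge1 s.1 b fun i _ => hb i
    rw [s.2] at h1
    exact h1
  have hAPB : ∀ s, PB Q (k * B) (A s) := hcwPB a ha
  have hA'PB : ∀ t s, PB Q (k * B) (A' t s) := fun t => hcwPB (a' t) (ha' t)
  have hApos : ∀ s, 0 < A s := fun s => (hAPB s).pos hQge1
  have hA'pos : ∀ t s, 0 < A' t s := fun t s => (hA'PB t s).pos hQge1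
  -- the wedges
  set w : κ → κ → ℚ := fun J => wedge (fun i => x (J.1.orderEmbOfFin J.2 i)) with hw
  have hwli : LinearIndependent ℚ w := wedge_indep x hx
  have hwP : ∀ J, PVec (pprod p) (w J) := fun J => PVec_wedge _ fun i => hxP _
  have hΛpos : ∀ J : κ, 0 < cw l J := fun J => Finset.prod_pos fun i _ => hlpos i
  have hwN : ∀ J, Sc.N A A' (w J) ≤ CN * cw l J := by
    intro J
    have h1 := hNw0 a a' hapos hapos' (fun i => x (J.1.orderEmbOfFin J.2 i))
    have h2 : ∏ i, S.N a a' (x (J.1.orderEmbOfFin J.2 i)) = cw l J := prod_orderEmb l J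
    rw [h2] at h1
    refine h1.trans (mul_le_mul_of_nonneg_right ?_ (hΛpos J).le)
    linarith
  have hΛprod : (∏ J : κ, cw l J) * wprod A A' ≤ K := by
    rw [prod_cw hk l, wprod_cw hk hkn.le a a', ← mul_pow]
    have hnn : 0 ≤ (∏ j, l j) * wprod a a' :=
      (mul_pos (Finset.prod_pos fun j _ => hlpos j) (wprod_pos hapos hapos')).le
    exact pow_le_pow_left₀ hnn (hC2.trans (le_abs_self _)) _
  -- the first `k` indices
  have hJ0card : (Finset.univ.filter fun i : Fin n => i.val < k).card = k := by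
    have h1 : (Finset.univ.filter fun i : Fin n => i.val < k) =
        Finset.univ.image (Fin.castLE hkn.le) := by
      ext i
      simp only [Finset.mem_filter, Finset.mem_univ, true_and, Finset.mem_image]
      constructor
      · intro h
        exact ⟨⟨i.val, h⟩, rfl⟩
      · rintro ⟨j, rfl⟩
        exact j.2
    rw [h1, Finset.card_image_of_injective _ (Fin.castLE_injective _), Finset.card_univ,
      Fintype.card_fin]
  set J0 : κ := ⟨Finset.univ.filter fun i : Fin n => i.val < k, hJ0card⟩ with hJ0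
  have hJ0mem : ∀ i, i ∈ J0.1 ↔ i.val < k := by
    intro i
    simp [hJ0]
  set θ : ℝ := Q ^ δ with hθdef
  have hθ1 : 1 ≤ θ := Real.one_le_rpow hQge1 hδ.le
  have hθpos : 0 < θ := by linarith
  have hgapJ : ∀ J : κ, J ≠ J0 → θ * cw l J0 ≤ cw l J := by
    intro J hJ
    refine gap_prod (k := k) l hlpos J.1 J0.1 hJ0mem (J.2.trans J0.2.symm)
      (fun h => hJ (Subtype.ext h)) (l ⟨k - 1, by omega⟩) θ (hlpos _) hθ1 ?_ ?_
    · intro i hi
      refine hmono ?_
      rw [Fin.le_def]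
      show i.val ≤ k - 1
      omega
    · intro i hi
      refine hgap.trans (hmono ?_)
      rw [Fin.le_def]
      exact hi
  have hlowJ : ∀ y, PVec (pprod p) y → y ∉ Submodule.span ℚ {w J0} →
      θ * cw l J0 ≤ K1 * Sc.N A A' y := by
    intro y hy hyn
    exact lower_replace Sc cL hcL hlow A A' hApos hA'pos w hwli hwP (fun J => cw l J) hΛpos CN hCN1
      hwN K hΛprod y hy J0 hyn _ hgapJ
  obtain ⟨X, hX, hXP, hXmin, hXprod⟩ := hmink A A' hApos hA'pos
  set z : Fin (Fintype.card κ) := ⟨0, by omega⟩ with hz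
  set o : Fin (Fintype.card κ) := ⟨1, by omega⟩ with ho
  have hXmono := hXmin.mono hX hXP
  have hμz : Sc.N A A' (X z) ≤ CN * cw l J0 := by
    refine (hXmin z (w J0) (hwP J0) ?_).trans (hwN J0)
    have : {i : Fin (Fintype.card κ) | i < z} = ∅ := by
      ext i
      simp [Fin.lt_def, hz]
    rw [this, Set.image_empty, Submodule.span_empty, Submodule.mem_bot]
    exact hwli.ne_zero J0
  have hQδ : θ = Q ^ (δ / 2) * Q ^ (δ / 2) := by
    rw [hθdef, ← Real.rpow_add hQ0]
    congr 1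
    ring
  have hθ2 : K1 * CN + 1 ≤ Q ^ (δ / 2) := hQ2' Q hQ2le
  have hθ2pos : 0 < Q ^ (δ / 2) := Real.rpow_pos_of_pos hQ0 _
  have hθ2one : 1 ≤ Q ^ (δ / 2) := Real.one_le_rpow hQge1 (by positivity)
  have hXz : X z ∈ Submodule.span ℚ {w J0} := by
    by_contra hnot
    have h1 := hlowJ _ (hXP z) hnot
    have h2 : θ * cw l J0 ≤ (K1 * CN) * cw l J0 := by
      refine h1.trans ?_
      rw [mul_assoc]
      exact mul_le_mul_of_nonneg_left hμz hK1nn
    have h3 : θ ≤ K1 * CN := le_of_mul_le_mul_right h2 (hΛpos J0)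
    have h4 : Q ^ (δ / 2) ≤ θ := by
      rw [hQδ]
      exact le_mul_of_one_le_left hθ2pos.le hθ2one
    linarith
  have hspan : Submodule.span ℚ {X z} = Submodule.span ℚ {w J0} := by
    obtain ⟨c, hc⟩ := Submodule.mem_span_singleton.1 hXz
    have hc0 : c ≠ 0 := by
      rintro rfl
      exact hX.ne_zero z (by rw [← hc, zero_smul])
    rw [← hc]
    exact Submodule.span_singleton_smul_eq (IsUnit.mk0 c hc0) _
  have hXo : X o ∉ Submodule.span ℚ {w J0} := by
    rw [← hspan]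
    have h1 := hX.notMem_span_image (s := {z}) (x := o) (by
      rw [Set.mem_singleton_iff]
      intro h
      have := congrArg Fin.val h
      simp [hz, ho] at this)
    rwa [Set.image_singleton] at h1
  have hgapX : Q ^ (δ / 2) * Sc.N A A' (X z) ≤ Sc.N A A' (X o) := by
    have h1 := hlowJ _ (hXP o) hXo
    have h2 : θ * Sc.N A A' (X z) ≤ (K1 * CN) * Sc.N A A' (X o) := by
      calc θ * Sc.N A A' (X z) ≤ θ * (CN * cw l J0) := mul_le_mul_of_nonneg_left hμz hθpos.le
        _ = CN * (θ * cw l J0) := by ring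
        _ ≤ CN * (K1 * Sc.N A A' (X o)) := mul_le_mul_of_nonneg_left h1 hCNpos.le
        _ = _ := by ring
    have h3 : (K1 * CN) * Sc.N A A' (X o) ≤ Q ^ (δ / 2) * Sc.N A A' (X o) :=
      mul_le_mul_of_nonneg_right (by linarith) (N_nonneg _ _ _ _)
    have h4 : Q ^ (δ / 2) * (Q ^ (δ / 2) * Sc.N A A' (X z)) ≤
        Q ^ (δ / 2) * Sc.N A A' (X o) := by
      rw [← mul_assoc, ← hQδ]
      exact h2.trans h3
    exact le_of_mul_le_mul_left h4 hθ2pos
  have hmem := hFA Q hQ1le A A' hAPB hA'PB X hX hXP hXmin hgapX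
  change Submodule.span ℚ {X z} ∈ FA at hmem
  rw [hspan] at hmem
  have hxJ : LinearIndependent ℚ (fun i : Fin k => x (J0.1.orderEmbOfFin J0.2 i)) :=
    hx.comp _ (J0.1.orderEmbOfFin J0.2).injective
  have hrange : Set.range (fun i : Fin k => x (J0.1.orderEmbOfFin J0.2 i)) =
      x '' {i | i.val < k} := by
    rw [show (fun i : Fin k => x (J0.1.orderEmbOfFin J0.2 i)) =
      x ∘ (J0.1.orderEmbOfFin J0.2) from rfl, Set.range_comp, Finset.range_orderEmbOfFin]
    congr 1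
    ext i
    exact hJ0mem i
  have hV := hg _ hxJ
  rw [hrange] at hV
  rw [Finset.mem_filter, ← hV]
  refine ⟨Finset.mem_image_of_mem g hmem, ?_⟩
  change g (Submodule.span ℚ {(wedge fun i => x (J0.1.orderEmbOfFin J0.2 i) : κ → ℚ)}) ≠ ⊤
  rw [hV]
  intro htop
  have h1 : x ⟨k, hkn⟩ ∉ Submodule.span ℚ (x '' {i | i.val < k}) :=
    hx.notMem_span_image (s := {i : Fin n | i.val < k}) (by simp)
  rw [htop] at h1
  exact h1 Submodule.mem_top

end Pool.Agent.Helper94.Sub
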