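import Pool.Agent.Helper94.Sub.PB

/-!
# Subspace theorem project: selecting forms over the base field
-/

set_option autoImplicit false
set_option linter.unusedSectionVars false

namespace Pool.Agent.Helper94.Sub

open Pool.Agent.Helper10.Sub

/-- If `A` is an invertible matrix with algebraic entries over a finite extension `K` of `k`, then
one can choose linear maps `φ i : K → k` such that `(φ i (A i j))` is an invertible matrix with
algebraic entries. -/
theorem exists_select {ι : Type} [Fintype ι] [DecidableEq ι] {k K : Type} [Field k] [Field K]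
    [Algebra k K] [FiniteDimensional k K] [CharZero k] [CharZero K]
    (hspan : Submodule.span k {x : K | IsAlgebraic ℚ x} = ⊤) (A : Matrix ι ι K)
    (algA : ∀ i j, IsAlgebraic ℚ (A i j)) (detA : A.det ≠ 0) :
    ∃ φ : ι → (K →ₗ[k] k), (Matrix.of fun i j => φ i (A i j)).det ≠ 0 ∧
      ∀ i j, IsAlgebraic ℚ (φ i (A i j)) := by
  classical
  have htower : IsScalarTower ℚ k K := inferInstance
  set b := Module.Basis.ofSpan (K := k) (V := K) hspan.ge with hb
  have hfin : Finite ((linearIndepOn_empty k (id : K → K)).extend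
      (Set.empty_subset {x : K | IsAlgebraic ℚ x})) := Module.Finite.finite_basis b
  have := Fintype.ofFinite ((linearIndepOn_empty k (id : K → K)).extend
      (Set.empty_subset {x : K | IsAlgebraic ℚ x}))
  have hbalg : ∀ c, IsAlgebraic ℚ (b c) := by
    intro c
    have h1 := Module.Basis.ofSpan_subset (K := k) (V := K) hspan.ge
    exact h1 ⟨c, rfl⟩
  set φ := fun c => b.traceDual.coord c with hφ
  have hφalg : ∀ c x, IsAlgebraic ℚ x → IsAlgebraic ℚ (φ c x) := by
    intro c x hx
    have h1 : φ c x = Algebra.trace k K (x * b c) := by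
      simp only [hφ, Module.Basis.coord_apply, Module.Basis.traceDual_repr_apply]
      rfl
    rw [h1, isAlgebraic_iff_isIntegral]
    refine Algebra.isIntegral_trace ?_
    rw [← isAlgebraic_iff_isIntegral]
    exact hx.mul (hbalg c)
  by_contra hcon
  push Not at hcon
  have hzero : ∀ r : ι → _, (Matrix.of fun i j => φ (r i) (A i j)).det = 0 := by
    intro r
    by_contra h
    obtain ⟨i, j, hij⟩ := hcon (fun i => φ (r i)) h
    exact hij (hφalg _ _ (algA i j))
  apply detA
  have hA : A = fun i => ∑ c, b.traceDual c • (fun j => algebraMap k K (φ c (A i j))) := by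
    funext i j
    have h1 := b.traceDual.sum_repr (A i j)
    rw [Finset.sum_apply]
    conv_lhs => rw [← h1]
    refine Finset.sum_congr rfl fun c _ => ?_
    rw [Pi.smul_apply, smul_eq_mul, Algebra.smul_def, mul_comm]
    rfl
  rw [hA]
  change Matrix.detRowAlternating (R := K) (n := ι)
    (fun i => ∑ c, b.traceDual c • (fun j => algebraMap k K (φ c (A i j)))) = 0
  rw [← AlternatingMap.coe_multilinearMap, MultilinearMap.map_sum]
  refine Finset.sum_eq_zero fun r _ => ?_
  rw [MultilinearMap.map_smul_univ]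
  have h2 : (Matrix.detRowAlternating (R := K) (n := ι)).toMultilinearMap
      (fun i j => algebraMap k K (φ (r i) (A i j))) = 0 := by
    have h3 := hzero r
    have h4 := congrArg (algebraMap k K) h3
    rw [RingHom.map_det, map_zero] at h4
    exact h4
  rw [h2, smul_zero]

/-- Bounds for the selected forms. -/
theorem exists_select_bound {ι : Type} [Fintype ι] [DecidableEq ι] {k K : Type}
    [NontriviallyNormedField k] [CompleteSpace k] [NormedField K]
    [NormedAlgebra k K] [FiniteDimensional k K] [CharZero k] [CharZero K]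
    (hspan : Submodule.span k {x : K | IsAlgebraic ℚ x} = ⊤) (A : Matrix ι ι K)
    (algA : ∀ i j, IsAlgebraic ℚ (A i j)) (detA : A.det ≠ 0) :
    ∃ (A0 : Matrix ι ι k) (C : ℝ), 1 ≤ C ∧ A0.det ≠ 0 ∧ (∀ i j, IsAlgebraic ℚ (A0 i j)) ∧
      ∀ (x : ι → ℚ) (i : ι), ‖∑ j, A0 i j * ((x j : ℚ) : k)‖ ≤
        C * ‖∑ j, A i j * ((x j : ℚ) : K)‖ := by
  obtain ⟨φ, hφ1, hφ2⟩ := exists_select (k := k) (K := K) hspan A algA detA
  set C : ℝ := 1 + ∑ i, ‖(φ i).toContinuousLinearMap‖ with hC
  refine ⟨Matrix.of fun i j => φ i (A i j), C, ?_, hφ1, hφ2, ?_⟩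
  · have : 0 ≤ ∑ i, ‖(φ i).toContinuousLinearMap‖ := Finset.sum_nonneg fun _ _ => norm_nonneg _
    linarith
  · intro x i
    have h1 : ∑ j, (Matrix.of fun i j => φ i (A i j)) i j * ((x j : ℚ) : k) =
        (φ i).toContinuousLinearMap (∑ j, A i j * ((x j : ℚ) : K)) := by
      rw [map_sum]
      refine Finset.sum_congr rfl fun j _ => ?_
      have h2 : A i j * ((x j : ℚ) : K) = ((x j : ℚ) : k) • A i j := by
        rw [Algebra.smul_def, map_ratCast, mul_comm]
      rw [h2, map_smul, smul_eq_mul, mul_comm]
      rfl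
    rw [h1]
    refine ((φ i).toContinuousLinearMap.le_opNorm _).trans ?_
    refine mul_le_mul_of_nonneg_right ?_ (norm_nonneg _)
    have h3 : ‖(φ i).toContinuousLinearMap‖ ≤ ∑ i, ‖(φ i).toContinuousLinearMap‖ :=
      Finset.single_le_sum (f := fun i => ‖(φ i).toContinuousLinearMap‖)
        (fun _ _ => norm_nonneg _) (Finset.mem_univ i)
    linarith

end Pool.Agent.Helper94.Sub
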